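import Pool.Agent.V5helper70.EQ.Conc

set_option autoImplicit false

/-! Main statements. -/

open scoped Pointwise Classical
open Finset
open Pool.Agent.Y806.DF Pool.Agent.R92.Star Pool.Agent.R424.EX

namespace Pool.Agent.V5helper70.EQ

universe u v

/-- An infinite group of automorphisms acts through a finite group, up to `K ^ 2` cosets. -/
theorem finite_group {G : Type v} {Γ : Type u} [Group G] [AddCommGroup Γ] [DistribMulAction G Γ]
    {A : Finset Γ} (hA : A.Nonempty) {K : ℝ}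
    (hK : ∀ g : G, ((A + g • A).card : ℝ) ≤ K * A.card) :
    ∃ (Γ₀ : AddSubgroup Γ) (N : Subgroup G) (T : Finset Γ), Γ₀.FG ∧ (∀ g : G, g • Γ₀ = Γ₀) ∧
      N.FiniteIndex ∧ (∀ g ∈ N, ∀ x ∈ Γ₀, g • x = x) ∧ (T.card : ℝ) ≤ K ^ 2 ∧
      ∀ a ∈ A, ∃ t ∈ T, a - t ∈ Γ₀ := by
  have hK1 : 1 ≤ K := one_le_of hA hK
  have hK0 : 0 < K := by linarith
  obtain ⟨x₀, A₁, h0, hfo, hsub, hcard⟩ := reduce (G := G) hA hK
  set O : Set Γ := ⋃ x ∈ (A₁ : Set Γ), MulAction.orbit G x with hO
  have hOfin : O.Finite := Set.Finite.biUnion A₁.finite_toSet fun x hx => hfo x hx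
  have hOG : ∀ (g : G), ∀ x ∈ O, g • x ∈ O := by
    intro g x hx
    obtain ⟨y, hy, hx'⟩ := Set.mem_iUnion₂.1 hx
    obtain ⟨g', rfl⟩ := hx'
    exact Set.mem_iUnion₂.2 ⟨y, hy, g * g', mul_smul _ _ _⟩
  have hAO : ∀ x ∈ A₁, x ∈ O := fun x hx =>
    Set.mem_iUnion₂.2 ⟨x, Finset.mem_coe.2 hx, 1, one_smul _ _⟩
  have hinv : ∀ (g : G), ∀ x ∈ AddSubgroup.closure O, g • x ∈ AddSubgroup.closure O := by
    intro g x hx
    induction hx using AddSubgroup.closure_induction with
    | mem x hx => exact AddSubgroup.subset_closure (hOG g x hx)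
    | zero => rw [smul_zero]; exact AddSubgroup.zero_mem _
    | add x y _ _ hx hy => rw [smul_add]; exact AddSubgroup.add_mem _ hx hy
    | neg x _ hx => rw [smul_neg]; exact AddSubgroup.neg_mem _ hx
  have hstab : ∀ x ∈ O, (MulAction.stabilizer G x).FiniteIndex := by
    intro x hx
    obtain ⟨y, hy, hx'⟩ := Set.mem_iUnion₂.1 hx
    have h1 : (MulAction.orbit G x).Finite := by
      rw [MulAction.orbit_eq_iff.2 hx']
      exact hfo y hy
    have : Finite (MulAction.orbit G x) := h1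
    have h2 : Finite (G ⧸ MulAction.stabilizer G x) :=
      Finite.of_equiv _ (MulAction.orbitEquivQuotientStabilizer G x)
    exact Subgroup.finiteIndex_of_finite_quotient
  -- representatives
  obtain ⟨T, hTA, hTmax⟩ : ∃ T ∈ A.powerset.filter (fun T : Finset Γ =>
      ∀ s ∈ T, ∀ t ∈ T, s - t ∈ AddSubgroup.closure O → s = t),
      ∀ T' ∈ A.powerset.filter (fun T : Finset Γ =>
      ∀ s ∈ T, ∀ t ∈ T, s - t ∈ AddSubgroup.closure O → s = t), T'.card ≤ T.card :=
    Finset.exists_max_image _ _ ⟨∅, by simp⟩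
  obtain ⟨hTA1, hTA2⟩ := Finset.mem_filter.1 hTA
  rw [Finset.mem_powerset] at hTA1
  refine ⟨AddSubgroup.closure O, ⨅ x : O, MulAction.stabilizer G (x : Γ), T, ?_, ?_, ?_, ?_, ?_, ?_⟩
  · exact (AddSubgroup.fg_iff _).2 ⟨O, rfl, hOfin⟩
  · intro g
    refine le_antisymm ?_ ?_
    · intro y hy
      obtain ⟨x, hx, rfl⟩ := hy
      exact hinv g x hx
    · intro y hy
      exact ⟨g⁻¹ • y, hinv g⁻¹ y hy, smul_inv_smul g y⟩
  · have : Finite O := hOfin
    have : ∀ x : O, (MulAction.stabilizer G (x : Γ)).FiniteIndex := fun x => hstab x x.2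
    exact Subgroup.finiteIndex_iInf this
  · intro g hg x hx
    induction hx using AddSubgroup.closure_induction with
    | mem x hx => exact (Subgroup.mem_iInf.1 hg ⟨x, hx⟩)
    | zero => exact smul_zero _
    | add x y _ _ hx hy => rw [smul_add, hx, hy]
    | neg x _ hx => rw [smul_neg, hx]
  · have hA₁ : (0 : ℝ) < A₁.card := by exact_mod_cast Finset.card_pos.2 ⟨0, h0⟩
    have h1 : (T ×ˢ A₁).card ≤ (A + A).card := by
      refine Finset.card_le_card_of_injOn (fun p => p.1 + (p.2 + x₀)) ?_ ?_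
      · rintro ⟨t, a⟩ hp
        obtain ⟨ht, ha⟩ := Finset.mem_product.1 (Finset.mem_coe.1 hp)
        exact Finset.mem_coe.2 (Finset.add_mem_add (hTA1 ht) (hsub a ha))
      · rintro ⟨t, a⟩ hp ⟨t', a'⟩ hp' e
        obtain ⟨ht, ha⟩ := Finset.mem_product.1 (Finset.mem_coe.1 hp)
        obtain ⟨ht', ha'⟩ := Finset.mem_product.1 (Finset.mem_coe.1 hp')
        have e1 : t + (a + x₀) = t' + (a' + x₀) := e
        have e2 : t - t' = a' - a := by
          rw [sub_eq_sub_iff_add_eq_add]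
          have : t + a + x₀ = t' + a' + x₀ := by rw [add_assoc, add_assoc]; exact e1
          rw [add_right_cancel this, add_comm]
        have e3 : t = t' := hTA2 t ht t' ht' (by
          rw [e2]
          exact AddSubgroup.sub_mem _ (AddSubgroup.subset_closure (hAO a' ha'))
            (AddSubgroup.subset_closure (hAO a ha)))
        subst e3
        rw [add_right_cancel (add_left_cancel e1)]
    rw [Finset.card_product] at h1
    have h2 : (T.card : ℝ) * A₁.card ≤ (A + A).card := by exact_mod_cast h1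
    have hAA : ((A + A).card : ℝ) ≤ K * A.card := by
      have := hK 1
      rwa [one_smul] at this
    have h3 : (T.card : ℝ) * A₁.card ≤ K ^ 2 * A₁.card := by
      calc (T.card : ℝ) * A₁.card ≤ (A + A).card := h2
        _ ≤ K * A.card := hAA
        _ ≤ K * (K * A₁.card) := mul_le_mul_of_nonneg_left hcard hK0.le
        _ = _ := by ring
    exact le_of_mul_le_mul_right h3 hA₁
  · intro a ha
    by_contra hcon
    push Not at hcon
    have haT : a ∉ T := fun h => hcon a h (by rw [sub_self]; exact AddSubgroup.zero_mem _)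
    have h1 := hTmax (insert a T) (by
      refine Finset.mem_filter.2 ⟨Finset.mem_powerset.2 (Finset.insert_subset ha hTA1), ?_⟩
      intro s hs t ht hst
      rcases Finset.mem_insert.1 hs with rfl | hs'
      · rcases Finset.mem_insert.1 ht with rfl | ht'
        · rfl
        · exact absurd hst (hcon t ht')
      · rcases Finset.mem_insert.1 ht with rfl | ht'
        · refine absurd ?_ (hcon s hs')
          rw [← neg_sub]
          exact AddSubgroup.neg_mem _ hst
        · exact hTA2 s hs' t ht' hst)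
    rw [Finset.card_insert_of_notMem haT] at h1
    omega

/-- **Q1 for `A` is equivalent to Q1 for an invariant approximate group.** -/
theorem q1_iff (C : ℝ) : ∃ C₁ C₂ : ℝ, ∀ (G : Type v) (Γ : Type u) [Group G] [AddCommGroup Γ]
    [DistribMulAction G Γ] (K : ℝ) (A : Finset Γ), A.Nonempty →
    (∀ g : G, ((A + g • A).card : ℝ) ≤ K * A.card) →
    ∃ B : Finset Γ, (0 : Γ) ∈ B ∧ (∀ x ∈ B, -x ∈ B) ∧ (∀ g : G, g • B = B) ∧
      (B.card : ℝ) ≤ 4 * K ^ 18 * A.card ∧
      (∃ X ⊆ A, (X.card : ℝ) ≤ 4 * K ^ 16 ∧ A ⊆ X + B) ∧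
      (∃ Y : Finset Γ, (Y.card : ℝ) ≤ 2 ^ 15 * K ^ 105 ∧ B + B ⊆ Y + B) ∧
      (Concl C (2 ^ 15 * K ^ 105) B → Concl C₁ K A) ∧
      (Concl C K A → Concl C₂ (2 ^ 15 * K ^ 105) B) := by
  obtain ⟨a₀, ha₀⟩ : ∃ a : ℕ, a = 2 ^ 15 := ⟨_, rfl⟩
  have ha₀r : (a₀ : ℝ) = 2 ^ 15 := by rw [ha₀, Nat.cast_pow, Nat.cast_ofNat]
  obtain ⟨C₁, hC₁⟩ := concl_transfer.{u} C a₀ 105 (by rw [ha₀]; norm_num)
  obtain ⟨C₂, hC₂⟩ := concl_transfer.{u} C 2 2 (by norm_num)
  refine ⟨C₁, C₂, ?_⟩
  intro G Γ _ _ _ K A hA hK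
  have hK1 : 1 ≤ K := one_le_of hA hK
  have hK0 : 0 < K := by linarith
  have hAA : ((A + A).card : ℝ) ≤ K * A.card := by
    have := hK 1
    rwa [one_smul] at this
  obtain ⟨B, hB0, hBs, hBG, hB1, hB2, ⟨X, hXA, hX, hAX⟩, Y, hY, hBY⟩ := approx (G := G) hA hK
  have hBne : B.Nonempty := ⟨0, hB0⟩
  have hneg : -B = B := by
    refine Finset.Subset.antisymm ?_ ?_
    · intro x hx
      have := hBs _ (Finset.mem_neg'.1 hx)
      rwa [neg_neg] at this
    · intro x hx
      exact Finset.mem_neg'.2 (hBs x hx)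
  have hAB : ((A - B).card : ℝ) = (A + B).card := by rw [sub_eq_add_neg, hneg]
  have hBA : ((B - A).card : ℝ) = (A + B).card := by
    have h1 : (B - A) = -(A - B) := by rw [neg_sub]
    rw [h1, Finset.card_neg, hAB]
  have hBB : ((B + B).card : ℝ) ≤ (2 ^ 15 * K ^ 105) * B.card := by
    have h1 : ((Y + B).card : ℝ) ≤ Y.card * B.card := by exact_mod_cast Finset.card_add_le
    calc ((B + B).card : ℝ) ≤ (Y + B).card := Nat.cast_le.2 (Finset.card_le_card hBY)
      _ ≤ Y.card * B.card := h1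
      _ ≤ _ := mul_le_mul_of_nonneg_right hY (Nat.cast_nonneg _)
  have hAle : (A.card : ℝ) ≤ (4 * K ^ 16) * B.card := by
    have h1 : ((X + B).card : ℝ) ≤ X.card * B.card := by exact_mod_cast Finset.card_add_le
    calc (A.card : ℝ) ≤ (X + B).card := Nat.cast_le.2 (Finset.card_le_card hAX)
      _ ≤ X.card * B.card := h1
      _ ≤ _ := mul_le_mul_of_nonneg_right hX (Nat.cast_nonneg _)
  have hABle : ((A + B).card : ℝ) ≤ 2 ^ 16 * K ^ 118 * A.card := by
    calc ((A + B).card : ℝ) ≤ 2 ^ 14 * K ^ 100 * B.card := hB2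
      _ ≤ 2 ^ 14 * K ^ 100 * (4 * K ^ 18 * A.card) := mul_le_mul_of_nonneg_left hB1 (by positivity)
      _ = _ := by ring
  have hpow : ∀ i j : ℕ, i ≤ j → K ^ i ≤ K ^ j := fun i j h => pow_le_pow_right₀ hK1 h
  refine ⟨B, hB0, hBs, hBG, hB1, ⟨X, hXA, hX, hAX⟩, ⟨Y, hY, hBY⟩, ?_, ?_⟩
  · intro h
    refine hC₁ Γ K A B hA hBne hAA ?_ ?_ ?_ ?_
    · rw [ha₀r]
      exact hBB
    · rw [hAB, ha₀r]
      refine hB2.trans (mul_le_mul_of_nonneg_right ?_ (Nat.cast_nonneg _))
      exact mul_le_mul (by norm_num) (hpow _ _ (by norm_num)) (by positivity) (by positivity)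
    · rw [ha₀r]
      refine hB1.trans (mul_le_mul_of_nonneg_right ?_ (Nat.cast_nonneg _))
      exact mul_le_mul (by norm_num) (hpow _ _ (by norm_num)) (by positivity) (by positivity)
    · rw [ha₀r]
      exact h
  · intro h
    have e1 : ((2 : ℕ) : ℝ) * (2 ^ 15 * K ^ 105) ^ 2 = 2 ^ 31 * K ^ 210 := by
      push_cast
      ring
    have hle : K ≤ 2 ^ 31 * K ^ 210 := by
      calc K = 1 * K ^ 1 := by rw [one_mul, pow_one]
        _ ≤ _ := mul_le_mul (by norm_num) (hpow _ _ (by norm_num)) (by positivity) (by positivity)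
    refine hC₂ Γ (2 ^ 15 * K ^ 105) B A hBne hA hBB ?_ ?_ ?_ ?_
    · rw [e1]
      exact hAA.trans (mul_le_mul_of_nonneg_right hle (Nat.cast_nonneg _))
    · rw [e1, hBA]
      refine hABle.trans (mul_le_mul_of_nonneg_right ?_ (Nat.cast_nonneg _))
      exact mul_le_mul (by norm_num) (hpow _ _ (by norm_num)) (by positivity) (by positivity)
    · rw [e1]
      refine hAle.trans (mul_le_mul_of_nonneg_right ?_ (Nat.cast_nonneg _))
      exact mul_le_mul (by norm_num) (hpow _ _ (by norm_num)) (by positivity) (by positivity)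
    · rw [e1]
      exact concl_mono hK1 hle h

end Pool.Agent.V5helper70.EQ
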