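import Pool.Agent.V5helper70.EQ.Cov
import Pool.Agent.TH404.Tor.Final
import Pool.Agent.TH414.UD.Q1

set_option autoImplicit false

/-! Invariant subgroups: bounded exponent, and sums of dilates. -/

open scoped Pointwise Classical
open Finset

namespace Pool.Agent.V5helper70.EQ

universe u v

variable {G : Type v} {Γ : Type u} [Group G] [AddCommGroup Γ] [DistribMulAction G Γ]

theorem one_le_of {A : Finset Γ} (hA : A.Nonempty) {K : ℝ}
    (hK : ∀ g : G, ((A + g • A).card : ℝ) ≤ K * A.card) : 1 ≤ K := by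
  have hAc : (0 : ℝ) < A.card := by exact_mod_cast hA.card_pos
  have h1 := hK 1
  have h2 : A.card ≤ (A + (1 : G) • A).card := by
    rw [one_smul]
    exact Finset.card_le_card_add_right hA
  have h3 : (1 : ℝ) * A.card ≤ K * A.card := by
    rw [one_mul]
    exact (Nat.cast_le.2 h2).trans h1
  exact le_of_mul_le_mul_right h3 hAc

/-- Groups of exponent dividing `m`. -/
theorem exponent (m : ℕ) (hm : 0 < m) (htor : ∀ x : Γ, m • x = 0) (K : ℝ) (A : Finset Γ)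
    (hA : A.Nonempty) (hK : ∀ g : G, ((A + g • A).card : ℝ) ≤ K * A.card) :
    ∃ (W : AddSubgroup Γ) (T : Finset Γ), Finite W ∧ (∀ g : G, g • W = W) ∧
      (Nat.card W : ℝ) ≤ (2 * K) ^ (164022 * (Nat.log 2 m + 1)) * A.card ∧
      (T.card : ℝ) ≤ (2 * K) ^ (287038 * (Nat.log 2 m + 1)) ∧ ∀ a ∈ A, ∃ t ∈ T, a - t ∈ W := by
  have hK1 : 1 ≤ K := one_le_of hA hK
  have hK0 : 0 < K := by linarith
  have h2K : 1 ≤ 2 * K := by linarith
  have hAA : ((A + A).card : ℝ) ≤ K * A.card := by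
    have := hK 1
    rwa [one_smul] at this
  obtain ⟨V, T, hVf, hV, hT, hcov⟩ := Pool.Agent.TH404.Tor.upper m hm htor K A hA hAA
  set l := Nat.log 2 m + 1 with hl
  have hl1 : 1 ≤ l := by omega
  obtain ⟨W, T', hWf, hWG, hW1, hT', hcov'⟩ := transfer (G := G) hA hK0 one_pos hK V
    (by rw [one_mul]; exact_mod_cast hV) T hT hcov
  have hn : (1 : ℝ) * ((2 * K) ^ (41005 * l)) ^ 2 * K ≤ (2 * K) ^ (82010 * l + 1) := by
    calc (1 : ℝ) * ((2 * K) ^ (41005 * l)) ^ 2 * K = (2 * K) ^ (82010 * l) * K := by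
          rw [one_mul, ← pow_mul, show 41005 * l * 2 = 82010 * l by omega]
      _ ≤ (2 * K) ^ (82010 * l) * (2 * K) := by gcongr; linarith
      _ = _ := by rw [pow_succ]
  have hn0 : (0 : ℝ) ≤ 1 * ((2 * K) ^ (41005 * l)) ^ 2 * K := by positivity
  refine ⟨W, T', hWf, hWG, hW1.trans ?_, hT'.trans ?_, hcov'⟩
  · rw [mul_one]
    refine mul_le_mul_of_nonneg_right ?_ (Nat.cast_nonneg _)
    calc (1 * ((2 * K) ^ (41005 * l)) ^ 2 * K) ^ 2 ≤ ((2 * K) ^ (82010 * l + 1)) ^ 2 :=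
          pow_le_pow_left₀ hn0 hn 2
      _ = (2 * K) ^ ((82010 * l + 1) * 2) := (pow_mul _ _ _).symm
      _ ≤ _ := pow_le_pow_right₀ h2K (by omega)
  · calc (1 * ((2 * K) ^ (41005 * l)) ^ 2 * K) ^ 3 * (2 * K) ^ (41005 * l)
        ≤ ((2 * K) ^ (82010 * l + 1)) ^ 3 * (2 * K) ^ (41005 * l) := by gcongr
      _ = (2 * K) ^ ((82010 * l + 1) * 3 + 41005 * l) := by rw [← pow_mul, ← pow_add]
      _ ≤ _ := pow_le_pow_right₀ h2K (by omega)

/-- Arbitrary groups, for sets all of whose sums of dilates are small. -/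
theorem dilates (K : ℝ) (A : Finset Γ) (hA : A.Nonempty)
    (hK : ∀ g : G, ((A + g • A).card : ℝ) ≤ K * A.card)
    (hdil : ∀ n : ℕ, ((A + A.image (fun a => n • a)).card : ℝ) ≤ K * A.card) :
    ∃ (W : AddSubgroup Γ) (T : Finset Γ), Finite W ∧ (∀ g : G, g • W = W) ∧
      (Nat.card W : ℝ) ≤ K ^ 37838 * A.card ∧ (T.card : ℝ) ≤ K ^ 54057 ∧
      ∀ a ∈ A, ∃ t ∈ T, a - t ∈ W := by
  have hK1 : 1 ≤ K := one_le_of hA hK
  have hK0 : 0 < K := by linarith
  obtain ⟨V, T, hVf, hV, hT, hcov⟩ := (Pool.Agent.TH414.UD.q1A A hA K hdil).1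
  obtain ⟨W, T', hWf, hWG, hW1, hT', hcov'⟩ := transfer (G := G) hA hK0
    (show (0 : ℝ) < K ^ 5404 by positivity) hK V hV T hT hcov
  have hn : K ^ 5404 * (K ^ 5406) ^ 2 * K = K ^ 16217 := by
    rw [← pow_mul, ← pow_add, ← pow_succ]
  refine ⟨W, T', hWf, hWG, hW1.trans ?_, hT'.trans ?_, hcov'⟩
  · rw [hn, ← pow_mul, ← pow_add]
  · rw [hn, ← pow_mul, ← pow_add]

end Pool.Agent.V5helper70.EQ
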