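import Pool.Agent.V5helper70.EQ.Cov

set_option autoImplicit false

/-! Sets which are close to all their images are close to an invariant approximate group. -/

open scoped Pointwise Classical
open Finset

namespace Pool.Agent.V5helper70.EQ

universe u v

section Sets

variable {Γ : Type u} [AddCommGroup Γ]

/-- Plünnecke's inequality, real form -/
theorem plun {A : Finset Γ} (hA : A.Nonempty) {K : ℝ} (hK : ((A + A).card : ℝ) ≤ K * A.card)
    (m n : ℕ) : ((m • A - n • A).card : ℝ) ≤ K ^ (m + n) * A.card := by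
  have h := Finset.pluennecke_ruzsa_inequality_nsmul_sub_nsmul_add hA A m n
  have hAc : (0 : ℝ) < A.card := by exact_mod_cast hA.card_pos
  have h1 : ((m • A - n • A).card : ℝ) ≤ (((A + A).card : ℝ) / A.card) ^ (m + n) * A.card := by
    have h2 := (NNRat.cast_le (K := ℝ)).2 h
    push_cast at h2
    exact h2
  refine h1.trans (mul_le_mul_of_nonneg_right ?_ (Nat.cast_nonneg _))
  refine pow_le_pow_left₀ (by positivity) ?_ _
  rwa [div_le_iff₀ hAc]

theorem plun_three {A : Finset Γ} (hA : A.Nonempty) {K : ℝ}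
    (hK : ((A + A).card : ℝ) ≤ K * A.card) :
    (((A + A + A) - (A + A + A)).card : ℝ) ≤ K ^ 6 * A.card := by
  have h := plun hA hK 3 3
  have e : (3 : ℕ) • A = A + A + A := by
    rw [succ_nsmul, two_nsmul]
  rwa [e] at h

theorem plun_four {A : Finset Γ} (hA : A.Nonempty) {K : ℝ}
    (hK : ((A + A).card : ℝ) ≤ K * A.card) :
    ((A + A + (A + A)).card : ℝ) ≤ K ^ 4 * A.card := by
  have h := plun hA hK 4 0
  have e : (4 : ℕ) • A = A + A + (A + A) := by
    rw [show (4 : ℕ) = 2 + 2 from rfl, add_nsmul, two_nsmul]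
  rw [e, zero_nsmul] at h
  have e2 : A + A + (A + A) - (0 : Finset Γ) = A + A + (A + A) := sub_zero _
  rwa [e2] at h

theorem card_sub_le {A : Finset Γ} (hA : A.Nonempty) {K : ℝ}
    (hK : ((A + A).card : ℝ) ≤ K * A.card) : ((A - A).card : ℝ) ≤ K ^ 2 * A.card := by
  have h := plun hA hK 1 1
  rwa [one_nsmul] at h

end Sets

variable {G : Type v} {Γ : Type u} [Group G] [AddCommGroup Γ] [DistribMulAction G Γ]

theorem card_four {A : Finset Γ} (hA : A.Nonempty) {K : ℝ}
    (hK : ∀ g : G, ((A + g • A).card : ℝ) ≤ K * A.card) (hK1 : 1 ≤ K) (g : G) :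
    (((A - A) + (g • A - g • A)).card : ℝ) ≤ K ^ 8 * A.card := by
  have hK0 : 0 < K := by linarith
  have hAA : ((A + A).card : ℝ) ≤ K * A.card := by
    have := hK 1
    rwa [one_smul] at this
  obtain ⟨F, hF1, hF2, hF3⟩ := Finset.ruzsa_covering_add (A := g • A) (B := A) (K := K) hA
    (by rw [add_comm]; exact hK g)
  have hsub : (A - A) + (g • A - g • A) ⊆ (F - F) + ((A + A + A) - (A + A + A)) := by
    intro z hz
    obtain ⟨u, hu, w, hw, rfl⟩ := Finset.mem_add.1 hz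
    obtain ⟨a, ha, b, hb, rfl⟩ := Finset.mem_sub.1 hu
    obtain ⟨x, hx, y, hy, rfl⟩ := Finset.mem_sub.1 hw
    obtain ⟨f, hf, e, he, rfl⟩ := Finset.mem_add.1 (hF3 hx)
    obtain ⟨f', hf', e', he', rfl⟩ := Finset.mem_add.1 (hF3 hy)
    obtain ⟨c, hc, d, hd, rfl⟩ := Finset.mem_sub.1 he
    obtain ⟨c', hc', d', hd', rfl⟩ := Finset.mem_sub.1 he'
    have e1 : a - b + (f + (c - d) - (f' + (c' - d'))) =
        (f - f') + ((a + c + d') - (b + d + c')) := by abel
    rw [e1]
    exact Finset.add_mem_add (Finset.sub_mem_sub hf hf') (Finset.sub_mem_sub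
      (Finset.add_mem_add (Finset.add_mem_add ha hc) hd')
      (Finset.add_mem_add (Finset.add_mem_add hb hd) hc'))
  have h1 : ((F - F).card : ℝ) ≤ K * K := by
    have : ((F - F).card : ℝ) ≤ F.card * F.card := by exact_mod_cast Finset.card_sub_le
    exact this.trans (mul_le_mul hF2 hF2 (Nat.cast_nonneg _) hK0.le)
  have h2 := plun_three hA hAA
  have h3 : (((F - F) + ((A + A + A) - (A + A + A))).card : ℝ) ≤
      (F - F).card * ((A + A + A) - (A + A + A)).card := by exact_mod_cast Finset.card_add_le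
  calc (((A - A) + (g • A - g • A)).card : ℝ)
      ≤ (((F - F) + ((A + A + A) - (A + A + A))).card : ℝ) := by
        exact_mod_cast Finset.card_le_card hsub
    _ ≤ (F - F).card * ((A + A + A) - (A + A + A)).card := h3
    _ ≤ (K * K) * (K ^ 6 * A.card) := mul_le_mul h1 h2 (Nat.cast_nonneg _) (by positivity)
    _ = _ := by ring

/-- Reduction to elements with finite orbits. -/
theorem reduce {A : Finset Γ} (hA : A.Nonempty) {K : ℝ}
    (hK : ∀ g : G, ((A + g • A).card : ℝ) ≤ K * A.card) :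
    ∃ (x₀ : Γ) (A₁ : Finset Γ), (0 : Γ) ∈ A₁ ∧ (∀ a ∈ A₁, a ∈ fo G Γ) ∧
      (∀ a ∈ A₁, a + x₀ ∈ A) ∧ (A.card : ℝ) ≤ K * A₁.card := by
  obtain ⟨g, hg⟩ := exists_disj G (A - A) (A - A)
  obtain ⟨a₀, ha₀, hmax⟩ := Finset.exists_max_image A
    (fun a => (A.filter (fun b => b - a ∈ fo G Γ)).card) hA
  set M := A.filter (fun b => b - a₀ ∈ fo G Γ) with hM
  have hAc : (0 : ℝ) < A.card := by exact_mod_cast hA.card_pos
  -- the number of representations
  have h1 : (A ×ˢ (g • A)).card ≤ M.card * ((A ×ˢ (g • A)).image fun p => p.1 + p.2).card := by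
    refine Finset.card_le_mul_card_image _ _ fun c hc => ?_
    obtain ⟨⟨x₀, y₀⟩, hp, hc0⟩ := Finset.mem_image.1 hc
    rw [Finset.mem_product] at hp
    refine le_trans ?_ (hmax x₀ hp.1)
    refine Finset.card_le_card_of_injOn (fun p => p.1) ?_ ?_
    · rintro ⟨x, y⟩ hxy
      rw [Finset.mem_coe, Finset.mem_filter, Finset.mem_product] at hxy
      obtain ⟨⟨hx, hy⟩, hs⟩ := hxy
      obtain ⟨z, hz, rfl⟩ := Finset.mem_smul_finset.1 hy
      obtain ⟨z₀, hz₀, e₀⟩ := Finset.mem_smul_finset.1 hp.2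
      have e1 : x + g • z = x₀ + y₀ := hs.trans hc0.symm
      have e2 : g • (z₀ - z) = x - x₀ := by
        rw [smul_sub, e₀, sub_eq_sub_iff_add_eq_add, add_comm, ← e1, add_comm]
      rw [Finset.mem_coe, Finset.mem_filter]
      refine ⟨hx, ?_⟩
      show x - x₀ ∈ fo G Γ
      rw [← e2, smul_mem_fo_iff]
      by_contra hcon
      exact hg _ (Finset.sub_mem_sub hz₀ hz) hcon (by rw [e2]; exact Finset.sub_mem_sub hx hp.1)
    · rintro ⟨x, y⟩ hxy ⟨x', y'⟩ hxy' e
      rw [Finset.mem_coe, Finset.mem_filter, Finset.mem_product] at hxy hxy'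
      have e1 : x = x' := e
      subst e1
      have e2 : x + y = x + y' := hxy.2.trans hxy'.2.symm
      rw [add_left_cancel e2]
  have h2 : ((A ×ˢ (g • A)).image fun p => p.1 + p.2) = A + g • A := rfl
  rw [h2, Finset.card_product, card_smul_finset'] at h1
  have h3 : ((A.card * A.card : ℕ) : ℝ) ≤ ((M.card * (A + g • A).card : ℕ) : ℝ) := Nat.cast_le.2 h1
  rw [Nat.cast_mul, Nat.cast_mul] at h3
  have h4 : (A.card : ℝ) * A.card ≤ (K * M.card) * A.card := by
    calc (A.card : ℝ) * A.card ≤ M.card * ((A + g • A).card : ℝ) := h3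
      _ ≤ M.card * (K * A.card) := mul_le_mul_of_nonneg_left (hK g) (Nat.cast_nonneg _)
      _ = _ := by ring
  have h5 := le_of_mul_le_mul_right h4 hAc
  refine ⟨a₀, M.image (fun b => b - a₀), ?_, ?_, ?_, ?_⟩
  · refine Finset.mem_image.2 ⟨a₀, Finset.mem_filter.2 ⟨ha₀, ?_⟩, sub_self _⟩
    rw [sub_self]
    exact (fo G Γ).zero_mem
  · intro a ha
    obtain ⟨b, hb, rfl⟩ := Finset.mem_image.1 ha
    exact (Finset.mem_filter.1 hb).2
  · intro a ha
    obtain ⟨b, hb, rfl⟩ := Finset.mem_image.1 ha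
    rw [sub_add_cancel]
    exact (Finset.mem_filter.1 hb).1
  · rwa [Finset.card_image_of_injective _ (sub_left_injective)]

/-- The orbit of a finite set of elements with finite orbits is finite. -/
theorem orbit_finset_finite (D : Finset Γ) (hD : ∀ x ∈ D, x ∈ fo G Γ) :
    (MulAction.orbit G D).Finite := by
  have h1 : (⋃ x ∈ (D : Set Γ), MulAction.orbit G x).Finite :=
    Set.Finite.biUnion D.finite_toSet fun x hx => hD x hx
  refine Set.Finite.of_finite_image (f := fun U : Finset Γ => (U : Set Γ)) ?_ ?_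
  · refine (Set.Finite.finite_subsets h1).subset ?_
    rintro _ ⟨_, ⟨g, rfl⟩, rfl⟩
    intro y hy
    obtain ⟨x, hx, rfl⟩ := Finset.mem_smul_finset.1 (Finset.mem_coe.1 hy)
    exact Set.mem_biUnion (Finset.mem_coe.2 hx) ⟨g, rfl⟩
  · intro U _ U' _ h
    exact Finset.coe_injective h


/-- averaging data: a finite invariant family of symmetric sets containing `0` -/
theorem average (𝒟 : Finset (Finset Γ)) (h𝒟 : 𝒟.Nonempty) (hG : ∀ (g : G), ∀ D ∈ 𝒟, g • D ∈ 𝒟)
    (hsym : ∀ D ∈ 𝒟, ∀ x ∈ D, -x ∈ D) (h0 : ∀ D ∈ 𝒟, (0 : Γ) ∈ D)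
    {s d e m : ℝ} (hs : 0 < s) (hd : 0 < d) (hcard : ∀ D ∈ 𝒟, (D.card : ℝ) ≤ d)
    (hinter : ∀ D ∈ 𝒟, ∀ D' ∈ 𝒟, s ≤ ((D ∩ D').card : ℝ))
    (hsum : ∀ D ∈ 𝒟, ∀ D' ∈ 𝒟, ((D + D').card : ℝ) ≤ e) (A : Finset Γ)
    (hA : ∀ D ∈ 𝒟, ((A + D).card : ℝ) ≤ m) :
    ∃ B : Finset Γ, (0 : Γ) ∈ B ∧ (∀ x ∈ B, -x ∈ B) ∧ (∀ g : G, g • B = B) ∧
      s ≤ 2 * B.card ∧ s * B.card ≤ 2 * d ^ 2 ∧ s ^ 2 * ((B + B).card : ℝ) ≤ 4 * d ^ 2 * e ∧
      s * ((A + B).card : ℝ) ≤ 2 * d * m := by
  set N : ℝ := (𝒟.card : ℝ) with hN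
  have hN0 : 0 < N := by rw [hN]; exact_mod_cast h𝒟.card_pos
  let φ : Γ → ℝ := fun x => ((𝒟.filter (fun D => x ∈ D)).card : ℝ)
  set U : Finset Γ := 𝒟.biUnion id with hU
  have hφ0 : ∀ x, 0 ≤ φ x := fun x => Nat.cast_nonneg _
  have hφN : ∀ x, φ x ≤ N := fun x => by
    show ((𝒟.filter (fun D => x ∈ D)).card : ℝ) ≤ N
    rw [hN]
    exact Nat.cast_le.2 (Finset.card_filter_le _ _)
  have hφsum : ∀ x, φ x = ∑ D ∈ 𝒟, if x ∈ D then (1 : ℝ) else 0 := by
    intro x
    show ((𝒟.filter (fun D => x ∈ D)).card : ℝ) = _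
    rw [Finset.card_filter]
    push_cast
    rfl
  have hcount : ∀ S : Finset Γ, ∀ D : Finset Γ, D ⊆ S →
      ∑ x ∈ S, (if x ∈ D then (1 : ℝ) else 0) = D.card := by
    intro S D hDS
    rw [← Finset.sum_filter, Finset.sum_const, nsmul_eq_mul, mul_one]
    congr 1
    congr 1
    ext x
    rw [Finset.mem_filter]
    exact ⟨fun h => h.2, fun h => ⟨hDS h, h⟩⟩
  have hDU : ∀ D ∈ 𝒟, D ⊆ U := fun D hD => Finset.subset_biUnion_of_mem id hD
  -- first moment
  have hm1 : ∑ x ∈ U, φ x ≤ N * d := by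
    calc ∑ x ∈ U, φ x = ∑ D ∈ 𝒟, ∑ x ∈ U, (if x ∈ D then (1 : ℝ) else 0) := by
          rw [Finset.sum_comm]
          exact Finset.sum_congr rfl fun x _ => hφsum x
      _ ≤ ∑ D ∈ 𝒟, d := Finset.sum_le_sum fun D hD => by
          rw [hcount U D (hDU D hD)]
          exact hcard D hD
      _ = N * d := by rw [Finset.sum_const, nsmul_eq_mul]
  -- second moment
  have hm2 : N * N * s ≤ ∑ x ∈ U, φ x * φ x := by
    have e1 : ∀ x, φ x * φ x = ∑ D ∈ 𝒟, ∑ D' ∈ 𝒟, if x ∈ D ∩ D' then (1 : ℝ) else 0 := by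
      intro x
      rw [hφsum x, Finset.sum_mul_sum]
      refine Finset.sum_congr rfl fun D _ => Finset.sum_congr rfl fun D' _ => ?_
      by_cases h1 : x ∈ D <;> by_cases h2 : x ∈ D' <;> simp [h1, h2]
    calc N * N * s = ∑ D ∈ 𝒟, ∑ D' ∈ 𝒟, s := by
          simp only [Finset.sum_const, nsmul_eq_mul]
          ring
      _ ≤ ∑ D ∈ 𝒟, ∑ D' ∈ 𝒟, ∑ x ∈ U, (if x ∈ D ∩ D' then (1 : ℝ) else 0) :=
          Finset.sum_le_sum fun D hD => Finset.sum_le_sum fun D' hD' => by
            rw [hcount U (D ∩ D') (Finset.inter_subset_left.trans (hDU D hD))]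
            exact hinter D hD D' hD'
      _ = ∑ x ∈ U, φ x * φ x := by
          simp_rw [e1]
          rw [Finset.sum_comm' (s := 𝒟) (t := fun _ => 𝒟) (t' := 𝒟) (s' := fun _ => 𝒟)
            (by intros; tauto)]
          rw [Finset.sum_congr rfl fun D _ => Finset.sum_comm]
          rw [Finset.sum_comm]
          refine Finset.sum_congr rfl fun x _ => ?_
          rw [Finset.sum_comm]
  -- the set
  set B : Finset Γ := U.filter (fun x => N * s ≤ 2 * d * φ x) with hB
  have hmemB : ∀ x, x ∈ B ↔ N * s ≤ 2 * d * φ x := by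
    intro x
    rw [hB, Finset.mem_filter]
    refine ⟨fun h => h.2, fun h => ⟨?_, h⟩⟩
    by_contra hx
    have : φ x = 0 := by
      rw [hφsum x]
      refine Finset.sum_eq_zero fun D hD => ?_
      rw [if_neg fun h => hx (hDU D hD h)]
    rw [this, mul_zero] at h
    have : 0 < N * s := mul_pos hN0 hs
    linarith
  -- lower bound for `B`
  have hlow : N * N * s ≤ 2 * ∑ x ∈ B, φ x * φ x := by
    have e1 : ∑ x ∈ U, φ x * φ x = ∑ x ∈ B, φ x * φ x +
        ∑ x ∈ U.filter (fun x => ¬ N * s ≤ 2 * d * φ x), φ x * φ x :=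
      (Finset.sum_filter_add_sum_filter_not _ _ _).symm
    have e2 : ∑ x ∈ U.filter (fun x => ¬ N * s ≤ 2 * d * φ x), φ x * φ x ≤
        (N * s / (2 * d)) * (N * d) := by
      calc ∑ x ∈ U.filter (fun x => ¬ N * s ≤ 2 * d * φ x), φ x * φ x
          ≤ ∑ x ∈ U.filter (fun x => ¬ N * s ≤ 2 * d * φ x), (N * s / (2 * d)) * φ x := by
            refine Finset.sum_le_sum fun x hx => mul_le_mul_of_nonneg_right ?_ (hφ0 x)
            have h1 := (Finset.mem_filter.1 hx).2
            push Not at h1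
            rw [le_div_iff₀ (by positivity)]
            linarith
        _ ≤ ∑ x ∈ U, (N * s / (2 * d)) * φ x :=
            Finset.sum_le_sum_of_subset_of_nonneg (Finset.filter_subset _ _)
              fun x _ _ => mul_nonneg (by positivity) (hφ0 x)
        _ = (N * s / (2 * d)) * ∑ x ∈ U, φ x := (Finset.mul_sum _ _ _).symm
        _ ≤ _ := mul_le_mul_of_nonneg_left hm1 (by positivity)
    have e3 : (N * s / (2 * d)) * (N * d) = N * N * s / 2 := by
      field_simp
    rw [e3] at e2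
    linarith
  have hBle : ∑ x ∈ B, φ x * φ x ≤ N * N * B.card := by
    calc ∑ x ∈ B, φ x * φ x ≤ ∑ x ∈ B, N * N :=
          Finset.sum_le_sum fun x _ => mul_le_mul (hφN x) (hφN x) (hφ0 x) hN0.le
      _ = _ := by rw [Finset.sum_const, nsmul_eq_mul]; ring
  refine ⟨B, ?_, ?_, ?_, ?_, ?_, ?_, ?_⟩
  · rw [hmemB]
    have e1 : φ 0 = N := by
      rw [hφsum 0, Finset.sum_congr rfl (fun D hD => if_pos (h0 D hD)), Finset.sum_const,
        nsmul_eq_mul, mul_one]
    rw [e1]
    obtain ⟨D, hD⟩ := h𝒟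
    have h1 := hinter D hD D hD
    rw [Finset.inter_self] at h1
    have h2 := h1.trans (hcard D hD)
    nlinarith
  · intro x hx
    rw [hmemB] at hx ⊢
    have e1 : φ (-x) = φ x := by
      rw [hφsum, hφsum]
      refine Finset.sum_congr rfl fun D hD => ?_
      have : -x ∈ D ↔ x ∈ D := ⟨fun h => by have := hsym D hD _ h; rwa [neg_neg] at this,
        hsym D hD x⟩
      simp only [this]
    rwa [e1]
  · have hsub : ∀ g : G, g • B ⊆ B := by
      intro g y hy
      obtain ⟨x, hx, rfl⟩ := Finset.mem_smul_finset.1 hy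
      rw [hmemB] at hx ⊢
      have e1 : φ (g • x) = φ x := by
        rw [hφsum, hφsum]
        refine (Finset.sum_nbij' (fun D => g • D) (fun D => g⁻¹ • D) (fun D hD => hG g D hD)
          (fun D hD => hG g⁻¹ D hD) (fun D _ => by simp) (fun D _ => by simp) ?_).symm
        intro D _
        simp only [Finset.smul_mem_smul_finset_iff]
      rwa [e1]
    intro g
    refine Finset.Subset.antisymm (hsub g) ?_
    have h1 := Finset.smul_finset_subset_smul_finset (a := g) (hsub g⁻¹)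
    rwa [smul_inv_smul] at h1
  · have h1 : N * N * s ≤ N * N * (2 * B.card) := by linarith
    exact le_of_mul_le_mul_left h1 (by positivity)
  · have h1 : ∑ x ∈ B, N * s ≤ ∑ x ∈ B, 2 * d * φ x :=
      Finset.sum_le_sum fun x hx => (hmemB x).1 hx
    rw [Finset.sum_const, nsmul_eq_mul, ← Finset.mul_sum] at h1
    have h2 : ∑ x ∈ B, φ x ≤ N * d :=
      (Finset.sum_le_sum_of_subset_of_nonneg (Finset.filter_subset _ _)
        fun x _ _ => hφ0 x).trans hm1
    have h3 : N * (s * B.card) ≤ N * (2 * d ^ 2) := by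
      calc N * (s * B.card) = B.card * (N * s) := by ring
        _ ≤ 2 * d * ∑ x ∈ B, φ x := h1
        _ ≤ 2 * d * (N * d) := mul_le_mul_of_nonneg_left h2 (by positivity)
        _ = _ := by ring
    exact le_of_mul_le_mul_left h3 hN0
  · -- `B + B`
    have h1 : ∀ z ∈ B + B, (N * s) ^ 2 ≤ (2 * d) ^ 2 *
        ∑ D ∈ 𝒟, ∑ D' ∈ 𝒟, if z ∈ D + D' then (1 : ℝ) else 0 := by
      intro z hz
      obtain ⟨x, hx, y, hy, rfl⟩ := Finset.mem_add.1 hz
      rw [hmemB] at hx hy
      have e1 : φ x * φ y ≤ ∑ D ∈ 𝒟, ∑ D' ∈ 𝒟, if x + y ∈ D + D' then (1 : ℝ) else 0 := by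
        rw [hφsum x, hφsum y, Finset.sum_mul_sum]
        refine Finset.sum_le_sum fun D _ => Finset.sum_le_sum fun D' _ => ?_
        by_cases h1 : x ∈ D
        · by_cases h2 : y ∈ D'
          · rw [if_pos h1, if_pos h2, if_pos (Finset.add_mem_add h1 h2), mul_one]
          · rw [if_neg h2, mul_zero]
            split_ifs <;> norm_num
        · rw [if_neg h1, zero_mul]
          split_ifs <;> norm_num
      calc (N * s) ^ 2 = (N * s) * (N * s) := sq _
        _ ≤ (2 * d * φ x) * (2 * d * φ y) := mul_le_mul hx hy (by positivity)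
          (mul_nonneg (by positivity) (hφ0 x))
        _ = (2 * d) ^ 2 * (φ x * φ y) := by ring
        _ ≤ _ := mul_le_mul_of_nonneg_left e1 (by positivity)
    have h2 : ∑ z ∈ B + B, ∑ D ∈ 𝒟, ∑ D' ∈ 𝒟, (if z ∈ D + D' then (1 : ℝ) else 0) ≤ N * N * e := by
      have e1 : ∑ z ∈ B + B, ∑ D ∈ 𝒟, ∑ D' ∈ 𝒟, (if z ∈ D + D' then (1 : ℝ) else 0) =
          ∑ D ∈ 𝒟, ∑ D' ∈ 𝒟, ∑ z ∈ B + B, (if z ∈ D + D' then (1 : ℝ) else 0) := by
        rw [Finset.sum_comm]
        exact Finset.sum_congr rfl fun D _ => Finset.sum_comm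
      rw [e1]
      calc ∑ D ∈ 𝒟, ∑ D' ∈ 𝒟, ∑ z ∈ B + B, (if z ∈ D + D' then (1 : ℝ) else 0)
          ≤ ∑ D ∈ 𝒟, ∑ D' ∈ 𝒟, e := by
            refine Finset.sum_le_sum fun D hD => Finset.sum_le_sum fun D' hD' => ?_
            refine le_trans ?_ (hsum D hD D' hD')
            rw [← Finset.sum_filter, Finset.sum_const, nsmul_eq_mul, mul_one]
            exact_mod_cast Finset.card_le_card fun x hx => (Finset.mem_filter.1 hx).2
        _ = N * N * e := by
            simp only [Finset.sum_const, nsmul_eq_mul]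
            ring
    have h3 := Finset.sum_le_sum h1
    rw [Finset.sum_const, nsmul_eq_mul, ← Finset.mul_sum] at h3
    have h4 : N ^ 2 * (s ^ 2 * ((B + B).card : ℝ)) ≤ N ^ 2 * (4 * d ^ 2 * e) := by
      calc N ^ 2 * (s ^ 2 * ((B + B).card : ℝ)) = ((B + B).card : ℝ) * (N * s) ^ 2 := by ring
        _ ≤ _ := h3
        _ ≤ (2 * d) ^ 2 * (N * N * e) := mul_le_mul_of_nonneg_left h2 (by positivity)
        _ = _ := by ring
    exact le_of_mul_le_mul_left h4 (by positivity)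
  · -- `A + B`
    have h1 : ∀ z ∈ A + B, N * s ≤ 2 * d * ∑ D ∈ 𝒟, if z ∈ A + D then (1 : ℝ) else 0 := by
      intro z hz
      obtain ⟨x, hx, y, hy, rfl⟩ := Finset.mem_add.1 hz
      rw [hmemB] at hy
      refine hy.trans (mul_le_mul_of_nonneg_left ?_ (by positivity))
      rw [hφsum y]
      refine Finset.sum_le_sum fun D _ => ?_
      by_cases h2 : y ∈ D
      · rw [if_pos h2, if_pos (Finset.add_mem_add hx h2)]
      · rw [if_neg h2]
        split_ifs <;> norm_num
    have h2 : ∑ z ∈ A + B, ∑ D ∈ 𝒟, (if z ∈ A + D then (1 : ℝ) else 0) ≤ N * m := by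
      rw [Finset.sum_comm]
      calc ∑ D ∈ 𝒟, ∑ z ∈ A + B, (if z ∈ A + D then (1 : ℝ) else 0) ≤ ∑ D ∈ 𝒟, m := by
            refine Finset.sum_le_sum fun D hD => ?_
            refine le_trans ?_ (hA D hD)
            rw [← Finset.sum_filter, Finset.sum_const, nsmul_eq_mul, mul_one]
            exact_mod_cast Finset.card_le_card fun x hx => (Finset.mem_filter.1 hx).2
        _ = N * m := by rw [Finset.sum_const, nsmul_eq_mul]
    have h3 := Finset.sum_le_sum h1
    rw [Finset.sum_const, nsmul_eq_mul, ← Finset.mul_sum] at h3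
    have h4 : N * (s * ((A + B).card : ℝ)) ≤ N * (2 * d * m) := by
      calc N * (s * ((A + B).card : ℝ)) = ((A + B).card : ℝ) * (N * s) := by ring
        _ ≤ _ := h3
        _ ≤ 2 * d * (N * m) := mul_le_mul_of_nonneg_left h2 (by positivity)
        _ = _ := by ring
    exact le_of_mul_le_mul_left h4 hN0

end Pool.Agent.V5helper70.EQ
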