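import Pool.Agent.V5helper70.EQ.Inv
import Pool.Agent.R424.EX.Link

set_option autoImplicit false

/-! The conclusion of the polynomial Freiman-Ruzsa conjecture passes between commensurable sets. -/

open scoped Pointwise Classical
open Finset
open Pool.Agent.Y806.DF Pool.Agent.R92.Star Pool.Agent.R424.EX

namespace Pool.Agent.V5helper70.EQ

universe u v

/-- `Data` for a set which is close to `A` gives `Data` for `A`. -/
theorem data_transfer {Γ : Type u} [AddCommGroup Γ] {A B : Finset Γ} (hA : A.Nonempty)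
    (hB : B.Nonempty) {M L : ℝ} (hM : 1 ≤ M)
    (hAB : ((A - B).card : ℝ) ≤ M * B.card) (hBA : (B.card : ℝ) ≤ M * A.card) {d : ℕ}
    {X : Finset (Fin d → ℤ)} {ψ : (Fin d → ℤ) →+ Γ} {H : AddSubgroup Γ} {g : Γ}
    (hD : Data L B X ψ H g) : ∃ g', Data (M * L) A X ψ H g' := by
  have hX0 : (0 : ℝ) < X.card := by exact_mod_cast hD.ne.card_pos
  have hL1 : 1 ≤ L := by
    have h1 : (X.card : ℝ) ≤ (X + X).card := by
      exact_mod_cast Finset.card_le_card_add_right hD.ne
    have h2 : (1 : ℝ) * X.card ≤ L * X.card := by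
      rw [one_mul]
      exact h1.trans hD.doubling
    exact le_of_mul_le_mul_right h2 hX0
  have hL0 : 0 < L := by linarith
  have hM0 : 0 < M := by linarith
  have hML : L ≤ M * L := le_mul_of_one_le_left hL0.le hM
  set S := B.filter (fun a => ∃ x ∈ X, ∃ h ∈ H, a = g + ψ x + h) with hS
  have hSB : (B.card : ℝ) ≤ L * S.card := by
    have h1 := hD.meet
    have h2 : {a : Γ | a ∈ B ∧ ∃ x ∈ X, ∃ h ∈ H, a = g + ψ x + h} = (S : Set Γ) := by
      rw [hS, Finset.coe_filter]
    rwa [h2, Set.ncard_coe_finset] at h1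
  have hBc : (0 : ℝ) < B.card := by exact_mod_cast hB.card_pos
  have hSc : (0 : ℝ) < S.card := by
    by_contra h
    have : (S.card : ℝ) = 0 := le_antisymm (not_lt.1 h) (Nat.cast_nonneg _)
    rw [this, mul_zero] at hSB
    linarith
  have hSne : S.Nonempty := Finset.card_pos.1 (by exact_mod_cast hSc)
  -- the popular difference
  obtain ⟨t, ht, hmax⟩ := Finset.exists_max_image (A - S)
    (fun t => (A.filter (fun a => a - t ∈ S)).card) (hA.sub hSne)
  set N := A.filter (fun a => a - t ∈ S) with hN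
  have h1 : (A ×ˢ S).card ≤ N.card * ((A ×ˢ S).image fun p => p.1 - p.2).card := by
    refine Finset.card_le_mul_card_image _ _ fun c hc => ?_
    obtain ⟨⟨x₀, y₀⟩, hp, hc0⟩ := Finset.mem_image.1 hc
    rw [Finset.mem_product] at hp
    have hcm : c ∈ A - S := by
      rw [← hc0]
      exact Finset.sub_mem_sub hp.1 hp.2
    refine le_trans ?_ (hmax c hcm)
    refine Finset.card_le_card_of_injOn (fun p => p.1) ?_ ?_
    · rintro ⟨x, y⟩ hxy
      rw [Finset.mem_coe, Finset.mem_filter, Finset.mem_product] at hxy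
      obtain ⟨⟨hx, hy⟩, hs⟩ := hxy
      rw [Finset.mem_coe, Finset.mem_filter]
      refine ⟨hx, ?_⟩
      have hs' : x - y = c := hs
      show x - c ∈ S
      rw [← hs', sub_sub_cancel]
      exact hy
    · rintro ⟨x, y⟩ hxy ⟨x', y'⟩ hxy' e
      rw [Finset.mem_coe, Finset.mem_filter, Finset.mem_product] at hxy hxy'
      have e1 : x = x' := e
      subst e1
      have e2 : x - y = x - y' := hxy.2.trans hxy'.2.symm
      rw [sub_right_injective e2]
  have h2 : ((A ×ˢ S).image fun p => p.1 - p.2) = A - S := rfl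
  rw [h2, Finset.card_product] at h1
  have h3 : (A.card : ℝ) * S.card ≤ N.card * (A - S).card := by exact_mod_cast h1
  have h4 : ((A - S).card : ℝ) ≤ M * B.card := by
    refine le_trans ?_ hAB
    exact_mod_cast Finset.card_le_card
      (Finset.sub_subset_sub_left (s := A) (Finset.filter_subset _ B))
  have h5 : (A.card : ℝ) * S.card ≤ (M * L * N.card) * S.card := by
    calc (A.card : ℝ) * S.card ≤ N.card * (A - S).card := h3
      _ ≤ N.card * (M * B.card) := mul_le_mul_of_nonneg_left h4 (Nat.cast_nonneg _)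
      _ ≤ N.card * (M * (L * S.card)) := by gcongr
      _ = _ := by ring
  have h6 := le_of_mul_le_mul_right h5 hSc
  refine ⟨t + g, ⟨hD.ne, hD.fin, ?_, ?_, ?_, ?_⟩⟩
  · exact hD.doubling.trans (mul_le_mul_of_nonneg_right hML (Nat.cast_nonneg _))
  · exact hD.dense.trans (mul_le_mul_of_nonneg_right hML (Nat.cast_nonneg _))
  · calc (X.card : ℝ) * Nat.card H ≤ L * B.card := hD.size
      _ ≤ L * (M * A.card) := mul_le_mul_of_nonneg_left hBA hL0.le
      _ = _ := by ring
  · have h7 : {a : Γ | a ∈ A ∧ ∃ x ∈ X, ∃ h ∈ H, a = t + g + ψ x + h} =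
        ((A.filter (fun a => ∃ x ∈ X, ∃ h ∈ H, a = t + g + ψ x + h) : Finset Γ) : Set Γ) := by
      rw [Finset.coe_filter]
    rw [h7, Set.ncard_coe_finset]
    refine h6.trans (mul_le_mul_of_nonneg_left ?_ (by positivity))
    refine Nat.cast_le.2 (Finset.card_le_card ?_)
    intro a ha
    obtain ⟨ha1, ha2⟩ := Finset.mem_filter.1 ha
    obtain ⟨-, x, hx, h, hh, e⟩ := Finset.mem_filter.1 ha2
    refine Finset.mem_filter.2 ⟨ha1, x, hx, h, hh, ?_⟩
    rw [← sub_add_cancel a t, e]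
    abel

/-- The conclusion of Q1 passes from `B` to `A`, when `A` and `B` are commensurable. -/
theorem concl_transfer (C : ℝ) (a b : ℕ) (ha : 1 ≤ a) : ∃ C' : ℝ, ∀ (Γ : Type u) [AddCommGroup Γ]
    (K : ℝ) (A B : Finset Γ), A.Nonempty → B.Nonempty → ((A + A).card : ℝ) ≤ K * A.card →
    ((B + B).card : ℝ) ≤ (a * K ^ b) * B.card → ((A - B).card : ℝ) ≤ (a * K ^ b) * B.card →
    (B.card : ℝ) ≤ (a * K ^ b) * A.card → Concl C (a * K ^ b) B → Concl C' K A := by
  obtain ⟨n, hn1, hn, hCK⟩ := nat_const C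
  obtain ⟨C', hC'⟩ := concl_of.{u} (a * (4 ^ n * a ^ (4 ^ n))) (b + b * 4 ^ n)
  refine ⟨C', ?_⟩
  intro Γ _ K A B hA hB hAA hBB hAB hBA h
  have hK1 := one_le_K hA hAA
  have hK0 : 0 < K := by linarith
  have hM : 1 ≤ (a : ℝ) * K ^ b := by
    have e1 : (1 : ℝ) ≤ a := by exact_mod_cast ha
    have e2 : (1 : ℝ) ≤ K ^ b := one_le_pow₀ hK1
    nlinarith
  obtain ⟨d, X, ψ, H, g, hD⟩ := data_of_concl hn1 hn hCK hB hBB h
  obtain ⟨g', hD'⟩ := data_transfer hA hB hM hAB hBA hD
  refine hC' Γ K A hA hAA d X ψ H g' (hD'.mono (le_of_eq ?_))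
  push_cast
  rw [mul_pow, ← pow_mul, pow_add]
  ring

theorem concl_mono {Γ : Type u} [AddCommGroup Γ] {C K M : ℝ} {A : Finset Γ} (hK : 1 ≤ K)
    (hKM : K ≤ M) (h : Concl C K A) : Concl C M A := by
  obtain ⟨d, B, ψ, H, T, hd, hB, hH, hvol, hT, hcov⟩ := h
  have h1 : 0 < Real.log (2 * K) := Real.log_pos (by linarith)
  have hC : 0 ≤ C := by
    by_contra h
    have := mul_neg_of_neg_of_pos (not_le.1 h) h1
    have h2 : (0 : ℝ) ≤ d := Nat.cast_nonneg _
    linarith
  refine ⟨d, B, ψ, H, T, hd.trans ?_, hB, hH, hvol, hT.trans ?_, hcov⟩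
  · refine mul_le_mul_of_nonneg_left (Real.log_le_log (by linarith) (by linarith)) hC
  · exact mul_le_mul_of_nonneg_left (Real.rpow_le_rpow (by linarith) hKM hC) hC

end Pool.Agent.V5helper70.EQ
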