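import Pool.Agent.V5helper70.EQ.Lat

set_option autoImplicit false

/-! From a set close to a finite subgroup to a set close to an invariant finite subgroup. -/

open scoped Pointwise Classical
open Finset

namespace Pool.Agent.V5helper70.EQ

universe u v

section Sets

variable {Γ : Type u} [AddCommGroup Γ]

/-- few representations -/
theorem card_mul_card_le (X Y : Finset Γ) (P : Finset Γ)
    (h : ∀ x ∈ X, ∀ x' ∈ X, ∀ y ∈ Y, ∀ y' ∈ Y, x + y = x' + y' → x - x' ∈ P) :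
    X.card * Y.card ≤ P.card * (X + Y).card := by
  have h1 : (X ×ˢ Y).card ≤ P.card * ((X ×ˢ Y).image fun p => p.1 + p.2).card := by
    refine Finset.card_le_mul_card_image _ _ fun c hc => ?_
    obtain ⟨⟨x₀, y₀⟩, hp, hc0⟩ := Finset.mem_image.1 hc
    rw [Finset.mem_product] at hp
    refine Finset.card_le_card_of_injOn (fun p => p.1 - x₀) ?_ ?_
    · rintro ⟨x, y⟩ hxy
      rw [Finset.mem_coe, Finset.mem_filter, Finset.mem_product] at hxy
      exact h x hxy.1.1 x₀ hp.1 y hxy.1.2 y₀ hp.2 (hxy.2.trans hc0.symm)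
    · rintro ⟨x, y⟩ hxy ⟨x', y'⟩ hxy' e
      rw [Finset.mem_coe, Finset.mem_filter, Finset.mem_product] at hxy hxy'
      have e1 : x = x' := sub_left_injective e
      subst e1
      have e2 : x + y = x + y' := hxy.2.trans hxy'.2.symm
      rw [add_left_cancel e2]
  rw [Finset.card_product] at h1
  have h2 : ((X ×ˢ Y).image fun p => p.1 + p.2) = X + Y := rfl
  rwa [h2] at h1

/-- a popular class -/
theorem exists_class (A T : Finset Γ) (hT : T.Nonempty) (p : Γ → Γ → Prop)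
    (h : ∀ a ∈ A, ∃ t ∈ T, p t a) : ∃ t ∈ T, A.card ≤ T.card * (A.filter (p t)).card := by
  obtain ⟨t, ht, hmax⟩ := Finset.exists_max_image T (fun t => (A.filter (p t)).card) hT
  refine ⟨t, ht, ?_⟩
  have h1 : A ⊆ T.biUnion fun t => A.filter (p t) := by
    intro a ha
    obtain ⟨t, ht, hp⟩ := h a ha
    exact Finset.mem_biUnion.2 ⟨t, ht, Finset.mem_filter.2 ⟨ha, hp⟩⟩
  calc A.card ≤ (T.biUnion fun t => A.filter (p t)).card := Finset.card_le_card h1
    _ ≤ T.card * (A.filter (p t)).card :=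
      Finset.card_biUnion_le_card_mul T _ _ fun s hs => hmax s hs

/-- representatives of the cosets of `W ⊓ V` in `V` -/
theorem exists_reps (V W : AddSubgroup Γ) [Finite V] : ∃ R : Finset Γ,
    R.card * Nat.card ↥(W ⊓ V) ≤ Nat.card V ∧ ∀ v ∈ V, ∃ r ∈ R, v - r ∈ W := by
  let N : AddSubgroup V := (W ⊓ V).addSubgroupOf V
  have fQ : Finite (V ⧸ N) := inferInstance
  have fQ' : Fintype (V ⧸ N) := Fintype.ofFinite _
  refine ⟨Finset.univ.image (fun q : V ⧸ N => ((q.out : V) : Γ)), ?_, ?_⟩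
  · have h1 : (Finset.univ.image (fun q : V ⧸ N => ((q.out : V) : Γ))).card ≤ Nat.card (V ⧸ N) := by
      rw [Nat.card_eq_fintype_card]
      exact Finset.card_image_le
    have h2 : Nat.card (V ⧸ N) = (W ⊓ V).relIndex V := rfl
    rw [h2] at h1
    calc _ ≤ (W ⊓ V).relIndex V * Nat.card ↥(W ⊓ V) := Nat.mul_le_mul_right _ h1
      _ = Nat.card V := by rw [mul_comm]; exact card_mul_relIndex inf_le_right
  · intro v hv
    refine ⟨(((⟨v, hv⟩ : V) : V ⧸ N).out : V), Finset.mem_image_of_mem _ (Finset.mem_univ _), ?_⟩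
    have h1 : ((((⟨v, hv⟩ : V) : V ⧸ N).out : V) : V ⧸ N) = ((⟨v, hv⟩ : V) : V ⧸ N) :=
      Quotient.out_eq' _
    rw [QuotientAddGroup.eq] at h1
    have h2 := (AddSubgroup.mem_addSubgroupOf.1 h1).1
    have h3 : v - ((((⟨v, hv⟩ : V) : V ⧸ N).out : V) : Γ) =
        -((((⟨v, hv⟩ : V) : V ⧸ N).out : V) : Γ) + v := by abel
    rw [h3]
    exact h2

end Sets

variable {G : Type v} {Γ : Type u} [Group G] [AddCommGroup Γ] [DistribMulAction G Γ]

theorem card_smul_finset' (g : G) (A : Finset Γ) : (g • A).card = A.card :=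
  Finset.card_smul_finset g A

/-- **Transfer to an invariant subgroup.** -/
theorem transfer {A : Finset Γ} (hA : A.Nonempty) {K L₁ L₂ : ℝ} (hK0 : 0 < K) (hL₁ : 0 < L₁)
    (hK : ∀ g : G, ((A + g • A).card : ℝ) ≤ K * A.card) (V : AddSubgroup Γ) [Finite V]
    (hV : (Nat.card V : ℝ) ≤ L₁ * A.card) (T : Finset Γ) (hT : (T.card : ℝ) ≤ L₂)
    (hcov : ∀ a ∈ A, ∃ t ∈ T, a - t ∈ V) :
    ∃ (W : AddSubgroup Γ) (T' : Finset Γ), Finite W ∧ (∀ g : G, g • W = W) ∧
      (Nat.card W : ℝ) ≤ (L₁ * L₂ ^ 2 * K) ^ 2 * L₁ * A.card ∧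
      (T'.card : ℝ) ≤ (L₁ * L₂ ^ 2 * K) ^ 3 * L₂ ∧ ∀ a ∈ A, ∃ t ∈ T', a - t ∈ W := by
  have hTne : T.Nonempty := by
    obtain ⟨a, ha⟩ := hA
    obtain ⟨t, ht, _⟩ := hcov a ha
    exact ⟨t, ht⟩
  have hTpos : (0 : ℝ) < T.card := by exact_mod_cast hTne.card_pos
  have hL₂ : 0 < L₂ := hTpos.trans_le hT
  have hAc : (0 : ℝ) < A.card := by exact_mod_cast hA.card_pos
  set n : ℝ := L₁ * L₂ ^ 2 * K with hn
  have hn0 : 0 < n := by positivity
  obtain ⟨t, ht, hpop⟩ := exists_class A T hTne (fun t a => a - t ∈ V) hcov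
  set A₀ := A.filter (fun a => a - t ∈ V) with hA₀
  have hpop' : (A.card : ℝ) ≤ L₂ * A₀.card := by
    have : (A.card : ℝ) ≤ T.card * A₀.card := by exact_mod_cast hpop
    exact this.trans (mul_le_mul_of_nonneg_right hT (Nat.cast_nonneg _))
  have hclose : ∀ g : G, (Nat.card V : ℝ) ≤ n * Nat.card ↥(V ⊓ g • V) := by
    intro g
    have f1 : Finite ↥(V ⊓ g • V) := finite_of_le (U' := V) inf_le_left
    have hP : ((V ⊓ g • V : AddSubgroup Γ) : Set Γ).Finite := Set.toFinite _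
    have h1 := card_mul_card_le A₀ (g • A₀) hP.toFinset (by
      intro x hx x' hx' y hy y' hy' e
      rw [Set.Finite.mem_toFinset]
      rw [Finset.mem_filter] at hx hx'
      obtain ⟨z, hz, rfl⟩ := Finset.mem_smul_finset.1 hy
      obtain ⟨z', hz', rfl⟩ := Finset.mem_smul_finset.1 hy'
      rw [Finset.mem_filter] at hz hz'
      refine ⟨?_, ?_⟩
      · have : x - x' = (x - t) - (x' - t) := by abel
        rw [this]
        exact V.sub_mem hx.2 hx'.2
      · refine ⟨z' - z, ?_, ?_⟩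
        · have : z' - z = (z' - t) - (z - t) := by abel
          rw [this]
          exact V.sub_mem hz'.2 hz.2
        · show g • (z' - z) = x - x'
          rw [smul_sub, sub_eq_sub_iff_add_eq_add, add_comm, ← e, add_comm])
    have h2 : (hP.toFinset.card) = Nat.card ↥(V ⊓ g • V) := by
      rw [← Set.ncard_eq_toFinset_card _ hP]
      exact (Nat.card_coe_set_eq _).symm
    rw [h2, card_smul_finset'] at h1
    have h3 : ((A₀ + g • A₀).card : ℝ) ≤ K * A.card := by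
      have hs1 : A₀ ⊆ A := Finset.filter_subset _ _
      have hs2 : g • A₀ ⊆ g • A := Finset.smul_finset_subset_smul_finset hs1
      have hs3 : A₀ + g • A₀ ⊆ A + g • A := Finset.add_subset_add hs1 hs2
      have hs4 : (A₀ + g • A₀).card ≤ (A + g • A).card := Finset.card_le_card hs3
      exact (Nat.cast_le.2 hs4).trans (hK g)
    have h4 : (A₀.card : ℝ) * A₀.card ≤ Nat.card ↥(V ⊓ g • V) * (K * A.card) := by
      have h1' : ((A₀.card * A₀.card : ℕ) : ℝ) ≤
          ((Nat.card ↥(V ⊓ g • V) * (A₀ + g • A₀).card : ℕ) : ℝ) := Nat.cast_le.2 h1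
      rw [Nat.cast_mul, Nat.cast_mul] at h1'
      exact h1'.trans (mul_le_mul_of_nonneg_left h3 (Nat.cast_nonneg _))
    have h5 : (A.card : ℝ) * A.card ≤ L₂ ^ 2 * (A₀.card * A₀.card) := by
      calc (A.card : ℝ) * A.card ≤ (L₂ * A₀.card) * (L₂ * A₀.card) :=
            mul_le_mul hpop' hpop' hAc.le (by positivity)
        _ = _ := by ring
    have h6 : (A.card : ℝ) * A.card ≤ (L₂ ^ 2 * K * Nat.card ↥(V ⊓ g • V)) * A.card := by
      calc (A.card : ℝ) * A.card ≤ L₂ ^ 2 * (A₀.card * A₀.card) := h5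
        _ ≤ L₂ ^ 2 * (Nat.card ↥(V ⊓ g • V) * (K * A.card)) := by gcongr
        _ = _ := by ring
    have h7 := le_of_mul_le_mul_right h6 hAc
    calc (Nat.card V : ℝ) ≤ L₁ * A.card := hV
      _ ≤ L₁ * (L₂ ^ 2 * K * Nat.card ↥(V ⊓ g • V)) := mul_le_mul_of_nonneg_left h7 hL₁.le
      _ = n * Nat.card ↥(V ⊓ g • V) := by rw [hn]; ring
  obtain ⟨W, hWf, hWG, hW1, hW2⟩ := exists_invariant (G := G) V hn0 hclose
  obtain ⟨R, hR1, hR2⟩ := exists_reps V W
  refine ⟨W, T + R, hWf, hWG, ?_, ?_, ?_⟩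
  · calc (Nat.card W : ℝ) ≤ n ^ 2 * Nat.card V := hW1
      _ ≤ n ^ 2 * (L₁ * A.card) := mul_le_mul_of_nonneg_left hV (by positivity)
      _ = _ := by ring
  · have f2 : Finite ↥(W ⊓ V) := finite_of_le (U' := V) inf_le_right
    have h0 : (0 : ℝ) < Nat.card ↥(W ⊓ V) := by
      exact_mod_cast (Nat.card_pos : 0 < Nat.card ↥(W ⊓ V))
    have h1 : (R.card : ℝ) * Nat.card ↥(W ⊓ V) ≤ n ^ 3 * Nat.card ↥(W ⊓ V) := by
      refine le_trans ?_ hW2
      exact_mod_cast hR1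
    have h2 := le_of_mul_le_mul_right h1 h0
    calc ((T + R).card : ℝ) ≤ (T.card : ℝ) * R.card := by exact_mod_cast Finset.card_add_le
      _ ≤ L₂ * n ^ 3 := mul_le_mul hT h2 (Nat.cast_nonneg _) hL₂.le
      _ = _ := by ring
  · intro a ha
    obtain ⟨t, ht, h⟩ := hcov a ha
    obtain ⟨r, hr, h'⟩ := hR2 _ h
    refine ⟨t + r, Finset.add_mem_add ht hr, ?_⟩
    rwa [← sub_sub]

end Pool.Agent.V5helper70.EQ
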