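import Mathlib

set_option autoImplicit false

/-! Elements with finite orbits, and the lemma of B. H. Neumann. -/

open scoped Pointwise Classical
open Finset

namespace Pool.Agent.V5helper70.EQ

universe u v

variable (G : Type v) {Γ : Type u} [Group G] [AddCommGroup Γ] [DistribMulAction G Γ]

/-- the subgroup of the elements whose orbit under `G` is finite -/
def fo (Γ : Type u) [AddCommGroup Γ] [DistribMulAction G Γ] : AddSubgroup Γ where
  carrier := {x | (MulAction.orbit G x).Finite}
  zero_mem' := by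
    show (MulAction.orbit G (0 : Γ)).Finite
    refine (Set.finite_singleton (0 : Γ)).subset ?_
    rintro _ ⟨g, rfl⟩
    simp
  add_mem' := by
    intro x y hx hy
    show (MulAction.orbit G (x + y)).Finite
    refine (Set.Finite.add (hx : (MulAction.orbit G x).Finite)
      (hy : (MulAction.orbit G y).Finite)).subset ?_
    rintro _ ⟨g, rfl⟩
    exact ⟨g • x, ⟨g, rfl⟩, g • y, ⟨g, rfl⟩, (smul_add g x y).symm⟩
  neg_mem' := by
    intro x hx
    show (MulAction.orbit G (-x)).Finite
    refine ((hx : (MulAction.orbit G x).Finite).neg).subset ?_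
    rintro _ ⟨g, rfl⟩
    exact ⟨g, by simp⟩

theorem mem_fo {x : Γ} : x ∈ fo G Γ ↔ (MulAction.orbit G x).Finite := Iff.rfl

theorem smul_mem_fo {x : Γ} (g : G) (hx : x ∈ fo G Γ) : g • x ∈ fo G Γ := by
  rw [mem_fo, MulAction.orbit_smul]
  exact hx

theorem smul_mem_fo_iff {x : Γ} (g : G) : g • x ∈ fo G Γ ↔ x ∈ fo G Γ := by
  rw [mem_fo, MulAction.orbit_smul]
  exact Iff.rfl

/-- **Neumann's lemma.** Some `g` moves all the elements of a finite set `D` with infinite orbits
out of the finite set `D'`. -/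
theorem exists_disj (D D' : Finset Γ) : ∃ g : G, ∀ x ∈ D, x ∉ fo G Γ → g • x ∉ D' := by
  by_contra hcon
  push Not at hcon
  -- the pairs `(x, y)` with `x ∈ D`, `x` with infinite orbit, `y ∈ D'` in the orbit of `x`
  let s : Finset (Γ × Γ) := (D ×ˢ D').filter
    (fun p => p.1 ∉ fo G Γ ∧ ∃ g : G, g • p.1 = p.2)
  have hg : ∀ p : Γ × Γ, ∃ g : G, p ∈ s → g • p.1 = p.2 := by
    intro p
    by_cases hp : p ∈ s
    · obtain ⟨g, hg⟩ := (Finset.mem_filter.1 hp).2.2
      exact ⟨g, fun _ => hg⟩
    · exact ⟨1, fun h => absurd h hp⟩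
  choose g hg using hg
  have hcov : ⋃ p ∈ s, g p • (MulAction.stabilizer G p.1 : Set G) = Set.univ := by
    rw [Set.eq_univ_iff_forall]
    intro h
    obtain ⟨x, hx, hxf, hxy⟩ := hcon h
    have hp : (x, h • x) ∈ s :=
      Finset.mem_filter.2 ⟨Finset.mem_product.2 ⟨hx, hxy⟩, hxf, h, rfl⟩
    refine Set.mem_biUnion (x := (x, h • x)) hp ?_
    refine ⟨(g (x, h • x))⁻¹ * h, ?_, ?_⟩
    · show ((g (x, h • x))⁻¹ * h) • x = x
      rw [mul_smul, inv_smul_eq_iff]
      exact (hg _ hp).symm
    · simp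
  obtain ⟨p, hp, hfin⟩ := Subgroup.exists_finiteIndex_of_leftCoset_cover hcov
  refine (Finset.mem_filter.1 hp).2.1 ?_
  have h1 : Finite (G ⧸ MulAction.stabilizer G p.1) := Subgroup.finite_quotient_of_finiteIndex
  have h2 : Finite (MulAction.orbit G p.1) :=
    Finite.of_equiv _ (MulAction.orbitEquivQuotientStabilizer G p.1).symm
  exact Set.toFinite _

end Pool.Agent.V5helper70.EQ
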