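import Pool.Agent.V5helper70.EQ.Apx
import Pool.Agent.V5helper70.EQ.App

set_option autoImplicit false

/-! Sets which are close to all their images are close to an invariant approximate group. -/

open scoped Pointwise Classical
open Finset

namespace Pool.Agent.V5helper70.EQ

universe u v

variable {G : Type v} {Γ : Type u} [Group G] [AddCommGroup Γ] [DistribMulAction G Γ]

theorem smul_finset_add' (g : G) (A B : Finset Γ) : g • (A + B) = g • A + g • B := by
  ext z
  constructor
  · intro hz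
    obtain ⟨x, hx, rfl⟩ := Finset.mem_smul_finset.1 hz
    obtain ⟨a, ha, b, hb, rfl⟩ := Finset.mem_add.1 hx
    rw [smul_add]
    exact Finset.add_mem_add (Finset.smul_mem_smul_finset ha) (Finset.smul_mem_smul_finset hb)
  · intro hz
    obtain ⟨x, hx, y, hy, rfl⟩ := Finset.mem_add.1 hz
    obtain ⟨a, ha, rfl⟩ := Finset.mem_smul_finset.1 hx
    obtain ⟨b, hb, rfl⟩ := Finset.mem_smul_finset.1 hy
    rw [← smul_add]
    exact Finset.smul_mem_smul_finset (Finset.add_mem_add ha hb)

theorem smul_finset_sub' (g : G) (A B : Finset Γ) : g • (A - B) = g • A - g • B := by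
  ext z
  constructor
  · intro hz
    obtain ⟨x, hx, rfl⟩ := Finset.mem_smul_finset.1 hz
    obtain ⟨a, ha, b, hb, rfl⟩ := Finset.mem_sub.1 hx
    rw [smul_sub]
    exact Finset.sub_mem_sub (Finset.smul_mem_smul_finset ha) (Finset.smul_mem_smul_finset hb)
  · intro hz
    obtain ⟨x, hx, y, hy, rfl⟩ := Finset.mem_sub.1 hz
    obtain ⟨a, ha, rfl⟩ := Finset.mem_smul_finset.1 hx
    obtain ⟨b, hb, rfl⟩ := Finset.mem_smul_finset.1 hy
    rw [← smul_sub]
    exact Finset.smul_mem_smul_finset (Finset.sub_mem_sub ha hb)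

/-- the number of common differences -/
theorem card_inter {A B D E : Finset Γ} (hD : ∀ x ∈ A, ∀ y ∈ A, x - y ∈ D)
    (hE : ∀ x ∈ B, ∀ y ∈ B, x - y ∈ E) :
    A.card * B.card ≤ (D ∩ E).card * (A + B).card := by
  have h1 : (A ×ˢ B).card ≤ (D ∩ E).card * ((A ×ˢ B).image fun p => p.1 + p.2).card := by
    refine Finset.card_le_mul_card_image _ _ fun c hc => ?_
    obtain ⟨⟨x₀, y₀⟩, hp, hc0⟩ := Finset.mem_image.1 hc
    rw [Finset.mem_product] at hp
    refine Finset.card_le_card_of_injOn (fun p => p.1 - x₀) ?_ ?_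
    · rintro ⟨x, y⟩ hxy
      rw [Finset.mem_coe, Finset.mem_filter, Finset.mem_product] at hxy
      obtain ⟨⟨hx, hy⟩, hs⟩ := hxy
      have e1 : x + y = x₀ + y₀ := hs.trans hc0.symm
      rw [Finset.mem_coe, Finset.mem_inter]
      refine ⟨hD x hx x₀ hp.1, ?_⟩
      have e2 : x - x₀ = y₀ - y := by
        rw [sub_eq_sub_iff_add_eq_add, e1, add_comm]
      show x - x₀ ∈ E
      rw [e2]
      exact hE y₀ hp.2 y hy
    · rintro ⟨x, y⟩ hxy ⟨x', y'⟩ hxy' e
      rw [Finset.mem_coe, Finset.mem_filter, Finset.mem_product] at hxy hxy'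
      have e1 : x = x' := sub_left_injective e
      subst e1
      have e2 : x + y = x + y' := hxy.2.trans hxy'.2.symm
      rw [add_left_cancel e2]
  rwa [Finset.card_product] at h1

/-- **Invariant approximate groups.** -/
theorem approx {A : Finset Γ} (hA : A.Nonempty) {K : ℝ}
    (hK : ∀ g : G, ((A + g • A).card : ℝ) ≤ K * A.card) :
    ∃ B : Finset Γ, (0 : Γ) ∈ B ∧ (∀ x ∈ B, -x ∈ B) ∧ (∀ g : G, g • B = B) ∧
      (B.card : ℝ) ≤ 4 * K ^ 18 * A.card ∧
      ((A + B).card : ℝ) ≤ 2 ^ 14 * K ^ 100 * B.card ∧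
      (∃ X ⊆ A, (X.card : ℝ) ≤ 4 * K ^ 16 ∧ A ⊆ X + B) ∧
      ∃ Y : Finset Γ, (Y.card : ℝ) ≤ 2 ^ 15 * K ^ 105 ∧ B + B ⊆ Y + B := by
  have hK1 : 1 ≤ K := one_le_of hA hK
  have hK0 : 0 < K := by linarith
  have hAc : (0 : ℝ) < A.card := by exact_mod_cast hA.card_pos
  have hAA : ((A + A).card : ℝ) ≤ K * A.card := by
    have := hK 1
    rwa [one_smul] at this
  obtain ⟨x₀, A₁, h0, hfo, hsub, hcard⟩ := reduce (G := G) hA hK
  set D := A₁ - A₁ with hD
  have hDfo : ∀ x ∈ D, x ∈ fo G Γ := by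
    intro x hx
    obtain ⟨a, ha, b, hb, rfl⟩ := Finset.mem_sub.1 hx
    exact (fo G Γ).sub_mem (hfo a ha) (hfo b hb)
  have hfin := orbit_finset_finite (G := G) D hDfo
  have hsmulD : ∀ g : G, g • D = g • A₁ - g • A₁ := fun g => by
    rw [hD, smul_finset_sub']
  have hDsub : ∀ g : G, g • D ⊆ g • A - g • A := by
    intro g z hz
    rw [hsmulD] at hz
    obtain ⟨x, hx, y, hy, rfl⟩ := Finset.mem_sub.1 hz
    obtain ⟨a, ha, rfl⟩ := Finset.mem_smul_finset.1 hx
    obtain ⟨b, hb, rfl⟩ := Finset.mem_smul_finset.1 hy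
    have e : g • a - g • b = g • (a + x₀) - g • (b + x₀) := by
      rw [smul_add, smul_add]; abel
    rw [e]
    exact Finset.sub_mem_sub (Finset.smul_mem_smul_finset (hsub a ha))
      (Finset.smul_mem_smul_finset (hsub b hb))
  have hmem : ∀ E : Finset Γ, E ∈ hfin.toFinset ↔ ∃ g : G, g • D = E := by
    intro E
    rw [Set.Finite.mem_toFinset]
    rfl
  have hs0 : 0 < (A.card : ℝ) / K ^ 3 := by positivity
  have hd0 : 0 < K ^ 2 * (A.card : ℝ) := by positivity
  obtain ⟨B, hB0, hBs, hBG, hB1, hB2, hB3, hB4⟩ := average (G := G) hfin.toFinset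
    ⟨D, (hmem D).2 ⟨1, one_smul _ _⟩⟩
    (by
      intro g E hE
      obtain ⟨g', rfl⟩ := (hmem E).1 hE
      exact (hmem _).2 ⟨g * g', mul_smul _ _ _⟩)
    (by
      intro E hE x hx
      obtain ⟨g, rfl⟩ := (hmem E).1 hE
      rw [hsmulD] at hx ⊢
      obtain ⟨a, ha, b, hb, rfl⟩ := Finset.mem_sub.1 hx
      rw [neg_sub]
      exact Finset.sub_mem_sub hb ha)
    (by
      intro E hE
      obtain ⟨g, rfl⟩ := (hmem E).1 hE
      have h1 : (0 : Γ) ∈ D := by
        have := Finset.sub_mem_sub h0 h0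
        rwa [sub_self] at this
      have h2 := Finset.smul_mem_smul_finset (a := g) h1
      rwa [smul_zero] at h2)
    (s := (A.card : ℝ) / K ^ 3) (d := K ^ 2 * A.card) (e := K ^ 8 * A.card)
    (m := K ^ 8 * A.card) hs0 hd0
    (by
      intro E hE
      obtain ⟨g, rfl⟩ := (hmem E).1 hE
      have h1 := Finset.card_le_card (hDsub g)
      have h2 : (g • A - g • A) = g • (A - A) := (smul_finset_sub' _ _ _).symm
      rw [card_smul_finset', h2, card_smul_finset', ← card_smul_finset' g D] at h1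
      exact (Nat.cast_le.2 h1).trans (card_sub_le hA hAA))
    (by
      intro E hE E' hE'
      obtain ⟨g, rfl⟩ := (hmem E).1 hE
      obtain ⟨g', rfl⟩ := (hmem E').1 hE'
      have h1 := card_inter (A := g • A₁) (B := g' • A₁) (D := g • D) (E := g' • D)
        (fun x hx y hy => by rw [hsmulD]; exact Finset.sub_mem_sub hx hy)
        (fun x hx y hy => by rw [hsmulD]; exact Finset.sub_mem_sub hx hy)
      rw [card_smul_finset', card_smul_finset'] at h1
      -- the sum of the two images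
      have h2 : (g • A₁ + g' • A₁).card ≤ (A + (g⁻¹ * g') • A).card := by
        have e1 : g • A₁ + g' • A₁ ⊆
            (g • (A + (g⁻¹ * g') • A)).image (fun z => z - (g • x₀ + g' • x₀)) := by
          intro z hz
          obtain ⟨x, hx, y, hy, rfl⟩ := Finset.mem_add.1 hz
          obtain ⟨a, ha, rfl⟩ := Finset.mem_smul_finset.1 hx
          obtain ⟨b, hb, rfl⟩ := Finset.mem_smul_finset.1 hy
          refine Finset.mem_image.2 ⟨g • ((a + x₀) + (g⁻¹ * g') • (b + x₀)),
            Finset.smul_mem_smul_finset (Finset.add_mem_add (hsub a ha)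
              (Finset.smul_mem_smul_finset (hsub b hb))), ?_⟩
          rw [smul_add, ← mul_smul, mul_inv_cancel_left, smul_add, smul_add]
          abel
        refine (Finset.card_le_card e1).trans (Finset.card_image_le.trans ?_)
        rw [card_smul_finset']
      have h3 : ((A₁.card * A₁.card : ℕ) : ℝ) ≤
          (((g • D ∩ g' • D).card * (g • A₁ + g' • A₁).card : ℕ) : ℝ) := Nat.cast_le.2 h1
      push_cast at h3
      have h4 : ((g • A₁ + g' • A₁).card : ℝ) ≤ K * A.card :=
        (Nat.cast_le.2 h2).trans (hK _)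
      rw [div_le_iff₀ (by positivity)]
      have h5 : (A.card : ℝ) * A.card ≤ ((g • D ∩ g' • D).card * K ^ 3) * A.card := by
        calc (A.card : ℝ) * A.card ≤ (K * A₁.card) * (K * A₁.card) :=
              mul_le_mul hcard hcard hAc.le (by positivity)
          _ = K ^ 2 * (A₁.card * A₁.card) := by ring
          _ ≤ K ^ 2 * ((g • D ∩ g' • D).card * ((g • A₁ + g' • A₁).card)) :=
              mul_le_mul_of_nonneg_left h3 (by positivity)
          _ ≤ K ^ 2 * ((g • D ∩ g' • D).card * (K * A.card)) := by gcongr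
          _ = _ := by ring
      exact le_of_mul_le_mul_right h5 hAc)
    (by
      intro E hE E' hE'
      obtain ⟨g, rfl⟩ := (hmem E).1 hE
      obtain ⟨g', rfl⟩ := (hmem E').1 hE'
      have h1 : g • D + g' • D ⊆ g • ((A - A) + ((g⁻¹ * g') • A - (g⁻¹ * g') • A)) := by
        refine (Finset.add_subset_add (hDsub g) (hDsub g')).trans ?_
        rw [smul_finset_add', smul_finset_sub', smul_finset_sub', ← mul_smul,
          mul_inv_cancel_left]
      have h2 := Finset.card_le_card h1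
      rw [card_smul_finset'] at h2
      exact (Nat.cast_le.2 h2).trans (card_four hA hK hK1 _))
    A
    (by
      intro E hE
      obtain ⟨g, rfl⟩ := (hmem E).1 hE
      obtain ⟨a₀, ha₀⟩ := hA
      have h1 : A + g • D ⊆ ((A - A) + (g • A - g • A)).image (fun z => z + a₀) := by
        intro z hz
        obtain ⟨x, hx, y, hy, rfl⟩ := Finset.mem_add.1 hz
        refine Finset.mem_image.2 ⟨(x - a₀) + y, Finset.add_mem_add (Finset.sub_mem_sub hx ha₀)
          (hDsub g hy), by abel⟩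
      have h2 := (Finset.card_le_card h1).trans Finset.card_image_le
      exact (Nat.cast_le.2 h2).trans (card_four ⟨a₀, ha₀⟩ hK hK1 _))
  -- numbers
  have hBc : (0 : ℝ) < B.card := by exact_mod_cast Finset.card_pos.2 ⟨0, hB0⟩
  have hB1' : (A.card : ℝ) ≤ 2 * K ^ 3 * B.card := by
    rw [div_le_iff₀ (by positivity)] at hB1
    calc (A.card : ℝ) ≤ 2 * B.card * K ^ 3 := hB1
      _ = _ := by ring
  have hB3' : ((B + B).card : ℝ) ≤ 4 * K ^ 18 * A.card := by
    have h1 : (A.card : ℝ) ^ 2 * ((B + B).card : ℝ) ≤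
        (A.card : ℝ) ^ 2 * (4 * K ^ 18 * A.card) := by
      have h2 : (A.card / K ^ 3) ^ 2 * ((B + B).card : ℝ) * (K ^ 3) ^ 2 ≤
          4 * (K ^ 2 * A.card) ^ 2 * (K ^ 8 * A.card) * (K ^ 3) ^ 2 :=
        mul_le_mul_of_nonneg_right hB3 (by positivity)
      calc (A.card : ℝ) ^ 2 * ((B + B).card : ℝ)
          = (A.card / K ^ 3) ^ 2 * ((B + B).card : ℝ) * (K ^ 3) ^ 2 := by field_simp
        _ ≤ _ := h2
        _ = _ := by ring
    exact le_of_mul_le_mul_left h1 (by positivity)
  have hB4' : ((A + B).card : ℝ) ≤ 2 * K ^ 13 * A.card := by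
    have h1 : (A.card : ℝ) * ((A + B).card : ℝ) ≤ (A.card : ℝ) * (2 * K ^ 13 * A.card) := by
      have h2 : A.card / K ^ 3 * ((A + B).card : ℝ) * K ^ 3 ≤
          2 * (K ^ 2 * A.card) * (K ^ 8 * A.card) * K ^ 3 :=
        mul_le_mul_of_nonneg_right hB4 (by positivity)
      calc (A.card : ℝ) * ((A + B).card : ℝ)
          = A.card / K ^ 3 * ((A + B).card : ℝ) * K ^ 3 := by field_simp
        _ ≤ _ := h2
        _ = _ := by ring
    exact le_of_mul_le_mul_left h1 hAc
  have hBB : ((B + B).card : ℝ) ≤ (8 * K ^ 21) * B.card := by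
    calc ((B + B).card : ℝ) ≤ 4 * K ^ 18 * A.card := hB3'
      _ ≤ 4 * K ^ 18 * (2 * K ^ 3 * B.card) := mul_le_mul_of_nonneg_left hB1' (by positivity)
      _ = _ := by ring
  have hAB : ((A + B).card : ℝ) ≤ (4 * K ^ 16) * B.card := by
    calc ((A + B).card : ℝ) ≤ 2 * K ^ 13 * A.card := hB4'
      _ ≤ 2 * K ^ 13 * (2 * K ^ 3 * B.card) := mul_le_mul_of_nonneg_left hB1' (by positivity)
      _ = _ := by ring
  have hneg : -B = B := by
    refine Finset.Subset.antisymm ?_ ?_
    · intro x hx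
      have := hBs _ (Finset.mem_neg'.1 hx)
      rwa [neg_neg] at this
    · intro x hx
      exact Finset.mem_neg'.2 (hBs x hx)
  have hsubadd : B - B = B + B := by rw [sub_eq_add_neg, hneg]
  have hBsub : B ⊆ B + B := fun x hx => by
    have := Finset.add_mem_add hx hB0
    rwa [add_zero] at this
  have hpl : ∀ m : ℕ, ((m • B).card : ℝ) ≤ (8 * K ^ 21) ^ m * B.card := by
    intro m
    have h := plun ⟨0, hB0⟩ hBB m 0
    rwa [zero_nsmul, sub_zero, add_zero] at h
  have e3 : (3 : ℕ) • B = B + B + B := by rw [succ_nsmul, two_nsmul]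
  have e5 : (5 : ℕ) • B = B + B + (B + B) + B := by
    rw [show (5 : ℕ) = 2 + 2 + 1 from rfl, add_nsmul, add_nsmul, two_nsmul, one_nsmul]
  obtain ⟨X, hX1, hX2, hX3⟩ := Finset.ruzsa_covering_add (A := A) (B := B) (K := 4 * K ^ 16)
    ⟨0, hB0⟩ hAB
  obtain ⟨Y, hY1, hY2, hY3⟩ := Finset.ruzsa_covering_add (A := B + B + (B + B)) (B := B)
    (K := 2 ^ 15 * K ^ 105) ⟨0, hB0⟩ (by
      have h := hpl 5
      rw [e5] at h
      refine h.trans (le_of_eq ?_)
      rw [mul_pow, ← pow_mul]
      norm_num)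
  refine ⟨B + B, ?_, ?_, ?_, hB3', ?_, ⟨X, hX1, hX2, by rwa [hsubadd] at hX3⟩,
    Y, hY2, by rwa [hsubadd] at hY3⟩
  · have := Finset.add_mem_add hB0 hB0
    rwa [add_zero] at this
  · intro x hx
    obtain ⟨a, ha, b, hb, rfl⟩ := Finset.mem_add.1 hx
    rw [neg_add]
    exact Finset.add_mem_add (hBs a ha) (hBs b hb)
  · intro g
    rw [smul_finset_add', hBG]
  · -- `A + 2 B`
    have h1 : A + (B + B) ⊆ X + (B + B + (B + B)) := by
      have : A ⊆ X + (B + B) := by rwa [hsubadd] at hX3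
      calc A + (B + B) ⊆ X + (B + B) + (B + B) := Finset.add_subset_add_right this
        _ = X + (B + B + (B + B)) := by rw [add_assoc]
    have e4 : (4 : ℕ) • B = B + B + (B + B) := by
      rw [show (4 : ℕ) = 2 + 2 from rfl, add_nsmul, two_nsmul]
    have h2 := hpl 4
    rw [e4] at h2
    have h3 : ((X + (B + B + (B + B))).card : ℝ) ≤ X.card * (B + B + (B + B)).card := by
      exact_mod_cast Finset.card_add_le
    have h4 : (B.card : ℝ) ≤ (B + B).card := Nat.cast_le.2 (Finset.card_le_card hBsub)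
    calc ((A + (B + B)).card : ℝ) ≤ (X + (B + B + (B + B))).card :=
          Nat.cast_le.2 (Finset.card_le_card h1)
      _ ≤ X.card * (B + B + (B + B)).card := h3
      _ ≤ (4 * K ^ 16) * ((8 * K ^ 21) ^ 4 * B.card) :=
          mul_le_mul hX2 h2 (Nat.cast_nonneg _) (by positivity)
      _ = 2 ^ 14 * K ^ 100 * B.card := by ring
      _ ≤ _ := mul_le_mul_of_nonneg_left h4 (by positivity)

end Pool.Agent.V5helper70.EQ
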