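import Pool.Agent.V5helper70.EQ.Fin

set_option autoImplicit false

/-! Finite subgroups which are close to all their images are close to an invariant subgroup. -/

open scoped Pointwise Classical
open Finset

namespace Pool.Agent.V5helper70.EQ

universe u v

section Lattice

variable {Γ : Type u} [AddCommGroup Γ]

theorem card_mul_relIndex {H K : AddSubgroup Γ} (h : H ≤ K) :
    Nat.card H * H.relIndex K = Nat.card K := by
  have := AddSubgroup.relIndex_mul_relIndex ⊥ H K bot_le h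
  rwa [AddSubgroup.relIndex_bot_left, AddSubgroup.relIndex_bot_left] at this

/-- `|U + U'| |U ∩ U'| = |U| |U'|` -/
theorem card_sup_mul_card_inf (U U' : AddSubgroup Γ) :
    Nat.card ↥(U ⊔ U') * Nat.card ↥(U ⊓ U') = Nat.card U * Nat.card U' := by
  have h1 : Nat.card U' * U'.relIndex (U ⊔ U') = Nat.card ↥(U ⊔ U') :=
    card_mul_relIndex le_sup_right
  have h2 : Nat.card ↥(U ⊓ U') * (U ⊓ U').relIndex U = Nat.card U :=
    card_mul_relIndex inf_le_left
  have h3 : U'.relIndex (U ⊔ U') = U'.relIndex U := AddSubgroup.relIndex_sup_right U U'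
  have h4 : (U ⊓ U').relIndex U = U'.relIndex U := AddSubgroup.inf_relIndex_left U U'
  rw [← h1, ← h2, h3, h4]
  ring

theorem card_le_of_le {U U' : AddSubgroup Γ} [Finite U'] (h : U ≤ U') :
    Nat.card U ≤ Nat.card U' := Nat.card_le_card_of_injective _ (AddSubgroup.inclusion_injective h)

theorem finite_of_le {U U' : AddSubgroup Γ} [Finite U'] (h : U ≤ U') : Finite U :=
  Finite.of_injective _ (AddSubgroup.inclusion_injective h)

/-- supermodularity of `log |U ∩ V|` -/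
theorem card_inf_supermod (U U' V : AddSubgroup Γ) [Finite V] :
    Nat.card ↥(U ⊓ V) * Nat.card ↥(U' ⊓ V) ≤
      Nat.card ↥((U ⊔ U') ⊓ V) * Nat.card ↥((U ⊓ U') ⊓ V) := by
  rw [← card_sup_mul_card_inf (U ⊓ V) (U' ⊓ V)]
  have h1 : (U ⊓ V) ⊔ (U' ⊓ V) ≤ (U ⊔ U') ⊓ V :=
    sup_le (inf_le_inf_right _ le_sup_left) (inf_le_inf_right _ le_sup_right)
  have h2 : (U ⊓ V) ⊓ (U' ⊓ V) = (U ⊓ U') ⊓ V := by
    rw [inf_inf_inf_comm, inf_idem]
  have : Finite ↥((U ⊔ U') ⊓ V) := finite_of_le (U' := V) inf_le_right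
  rw [h2]
  exact Nat.mul_le_mul_right _ (card_le_of_le h1)

/-- the potential -/
noncomputable def MM (𝒱 : Finset (AddSubgroup Γ)) (U : AddSubgroup Γ) : ℝ :=
  ∑ V ∈ 𝒱, (Real.log (Nat.card U) - 2 * Real.log (Nat.card ↥(U ⊓ V)))

theorem log_card_add (U U' : AddSubgroup Γ) [Finite U] [Finite U'] :
    Real.log (Nat.card ↥(U ⊔ U')) + Real.log (Nat.card ↥(U ⊓ U')) =
      Real.log (Nat.card U) + Real.log (Nat.card U') := by
  have h := card_sup_mul_card_inf U U'
  have h1 : 0 < Nat.card U := Nat.card_pos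
  have h2 : 0 < Nat.card U' := Nat.card_pos
  have h3 : 0 < Nat.card ↥(U ⊔ U') * Nat.card ↥(U ⊓ U') := by
    rw [h]; exact Nat.mul_pos h1 h2
  have h4 : 0 < Nat.card ↥(U ⊔ U') := Nat.pos_of_mul_pos_right h3 |> fun _ => by
    exact Nat.pos_of_ne_zero fun e => by rw [e, Nat.zero_mul] at h3; exact absurd h3 (lt_irrefl _)
  have h5 : 0 < Nat.card ↥(U ⊓ U') :=
    Nat.pos_of_ne_zero fun e => by rw [e, Nat.mul_zero] at h3; exact absurd h3 (lt_irrefl _)
  rw [← Real.log_mul (by positivity) (by positivity), ← Real.log_mul (by positivity)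
    (by positivity)]
  congr 1
  exact_mod_cast h

theorem MM_submod (𝒱 : Finset (AddSubgroup Γ)) (h𝒱 : ∀ V ∈ 𝒱, Finite V)
    (U U' : AddSubgroup Γ) [Finite U] [Finite U'] :
    MM 𝒱 (U ⊔ U') + MM 𝒱 (U ⊓ U') ≤ MM 𝒱 U + MM 𝒱 U' := by
  unfold MM
  rw [← Finset.sum_add_distrib, ← Finset.sum_add_distrib]
  refine Finset.sum_le_sum fun V hV => ?_
  have := h𝒱 V hV
  have h1 := log_card_add U U'
  have h2 := card_inf_supermod U U' V
  have f1 : Finite ↥(U ⊓ V) := finite_of_le (U' := V) inf_le_right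
  have f2 : Finite ↥(U' ⊓ V) := finite_of_le (U' := V) inf_le_right
  have f3 : Finite ↥((U ⊔ U') ⊓ V) := finite_of_le (U' := V) inf_le_right
  have f4 : Finite ↥((U ⊓ U') ⊓ V) := finite_of_le (U' := V) inf_le_right
  have p1 : 0 < Nat.card ↥(U ⊓ V) := Nat.card_pos
  have p2 : 0 < Nat.card ↥(U' ⊓ V) := Nat.card_pos
  have p3 : 0 < Nat.card ↥((U ⊔ U') ⊓ V) := Nat.card_pos
  have p4 : 0 < Nat.card ↥((U ⊓ U') ⊓ V) := Nat.card_pos
  have h3 : Real.log (Nat.card ↥(U ⊓ V)) + Real.log (Nat.card ↥(U' ⊓ V)) ≤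
      Real.log (Nat.card ↥((U ⊔ U') ⊓ V)) + Real.log (Nat.card ↥((U ⊓ U') ⊓ V)) := by
    rw [← Real.log_mul (by positivity) (by positivity), ← Real.log_mul (by positivity)
      (by positivity)]
    refine Real.log_le_log (by positivity) ?_
    exact_mod_cast h2
  linarith

end Lattice

variable {G : Type v} {Γ : Type u} [Group G] [AddCommGroup Γ] [DistribMulAction G Γ]

theorem card_smul' (g : G) (U : AddSubgroup Γ) : Nat.card ↥(g • U) = Nat.card U :=
  Set.natCard_smul_set g (U : Set Γ)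

theorem smul_inf' (g : G) (U V : AddSubgroup Γ) : g • (U ⊓ V) = g • U ⊓ g • V := by
  ext x
  simp only [AddSubgroup.mem_inf, AddSubgroup.mem_smul_pointwise_iff_exists]
  constructor
  · rintro ⟨s, ⟨h1, h2⟩, rfl⟩
    exact ⟨⟨s, h1, rfl⟩, ⟨s, h2, rfl⟩⟩
  · rintro ⟨⟨s, h1, rfl⟩, ⟨t, h2, e⟩⟩
    have : t = s := MulAction.injective g e
    subst this
    exact ⟨t, ⟨h1, h2⟩, rfl⟩

theorem MM_smul (𝒱 : Finset (AddSubgroup Γ)) (g : G) (h𝒱 : ∀ V ∈ 𝒱, g⁻¹ • V ∈ 𝒱)
    (h𝒱' : ∀ V ∈ 𝒱, g • V ∈ 𝒱) (U : AddSubgroup Γ) : MM 𝒱 (g • U) = MM 𝒱 U := by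
  unfold MM
  refine Finset.sum_nbij' (fun V => g⁻¹ • V) (fun V => g • V) h𝒱 h𝒱' ?_ ?_ ?_
  · intro V _; simp
  · intro V _; simp
  · intro V _
    rw [card_smul']
    congr 3
    rw [← card_smul' g (U ⊓ g⁻¹ • V), smul_inf', smul_inv_smul]

theorem finite_smul' (g : G) (U : AddSubgroup Γ) [Finite U] : Finite ↥(g • U) := by
  have h : Nat.card ↥(g • U) ≠ 0 := by
    rw [card_smul']
    exact Nat.card_pos.ne'
  exact Nat.finite_of_card_ne_zero h

theorem sum_sub_const {ι : Type*} (s : Finset ι) (a b : ℝ) :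
    ∑ _V ∈ s, (a - 2 * b) = s.card * (a - 2 * b) := by
  rw [Finset.sum_const, nsmul_eq_mul]

/-- The case of a finite orbit: `𝒱` is a finite `G`-invariant set of finite subgroups, one of which
is close to all of them. -/
theorem exists_invariant_of_finite (𝒱 : Finset (AddSubgroup Γ)) (hfin : ∀ V ∈ 𝒱, Finite V)
    (hG : ∀ (g : G), ∀ V ∈ 𝒱, g • V ∈ 𝒱) {V : AddSubgroup Γ} (hV : V ∈ 𝒱) {n : ℝ} (hn : 0 < n)
    (htrans : ∀ U ∈ 𝒱, ∃ g : G, U = g • V)
    (hclose : ∀ U ∈ 𝒱, (Nat.card V : ℝ) ≤ n * Nat.card ↥(V ⊓ U)) :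
    ∃ W : AddSubgroup Γ, Finite W ∧ (∀ g : G, g • W = W) ∧
      (Nat.card W : ℝ) * Nat.card V ≤ n ^ 2 * (Nat.card ↥(W ⊓ V) : ℝ) ^ 2 := by
  have hVf : Finite V := hfin V hV
  -- the ambient finite invariant subgroup
  let E : AddSubgroup Γ := 𝒱.sup id
  have hVE : V ≤ E := Finset.le_sup (f := id) hV
  have hEf : Finite E := by
    have : ∀ s : Finset (AddSubgroup Γ), (∀ V ∈ s, Finite V) → Finite ↥(s.sup id) := by
      intro s
      refine Finset.induction_on s ?_ ?_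
      · intro _
        rw [Finset.sup_empty]
        infer_instance
      · intro U s hUs ih h
        rw [Finset.sup_insert]
        have h1 : Finite U := h U (Finset.mem_insert_self _ _)
        have h2 := ih fun V hV => h V (Finset.mem_insert_of_mem hV)
        have h3 := card_sup_mul_card_inf U (s.sup id)
        refine Nat.finite_of_card_ne_zero ?_
        intro h4
        rw [show (id U ⊔ s.sup id : AddSubgroup Γ) = U ⊔ s.sup id from rfl] at h4
        rw [h4, Nat.zero_mul] at h3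
        have h5 : 0 < Nat.card U * Nat.card ↥(s.sup id) := Nat.mul_pos Nat.card_pos Nat.card_pos
        omega
    exact this 𝒱 hfin
  have hgE : ∀ g : G, g • E ≤ E := by
    intro g
    have h1 : E ≤ g⁻¹ • E := by
      refine Finset.sup_le fun U hU => ?_
      have h2 : g • U ≤ E := Finset.le_sup (f := id) (hG g U hU)
      rwa [id, AddSubgroup.le_pointwise_smul_iff, inv_inv]
    have h2 : g • E ≤ g • (g⁻¹ • E) := by
      rw [AddSubgroup.pointwise_smul_le_pointwise_smul_iff]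
      exact h1
    rwa [smul_inv_smul] at h2
  -- the finite set of its subgroups
  have hSf : {U : AddSubgroup Γ | U ≤ E}.Finite := by
    have h1 : Set.Finite {s : Set Γ | s ⊆ (E : Set Γ)} := Set.Finite.finite_subsets (Set.toFinite _)
    refine Set.Finite.of_finite_image (f := fun U : AddSubgroup Γ => (U : Set Γ)) ?_ ?_
    · refine h1.subset ?_
      rintro _ ⟨U, hU, rfl⟩
      exact hU
    · intro U _ U' _ h
      exact SetLike.coe_injective h
  have hfinU : ∀ U : AddSubgroup Γ, U ≤ E → Finite U := fun U hU => finite_of_le hU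
  obtain ⟨U₀, hU₀, hmin₀⟩ := Set.exists_min_image _ (MM 𝒱) hSf ⟨V, hVE⟩
  obtain ⟨W, ⟨hWE, hWm⟩, hmin⟩ := Set.exists_min_image
    {U : AddSubgroup Γ | U ≤ E ∧ MM 𝒱 U = MM 𝒱 U₀} (fun U => Nat.card U)
    (hSf.subset fun U hU => hU.1) ⟨U₀, hU₀, rfl⟩
  have hWf : Finite W := hfinU W hWE
  -- uniqueness
  have huniq : ∀ U : AddSubgroup Γ, U ≤ E → MM 𝒱 U = MM 𝒱 U₀ → Nat.card U = Nat.card W →
      U = W := by
    intro U hUE hUm hUc
    have hUf := hfinU U hUE
    have h1 := MM_submod 𝒱 hfin U W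
    have h2 : MM 𝒱 U₀ ≤ MM 𝒱 (U ⊔ W) := hmin₀ _ (sup_le hUE hWE)
    have h3 : MM 𝒱 U₀ ≤ MM 𝒱 (U ⊓ W) := hmin₀ _ (inf_le_left.trans hUE)
    have h4 : MM 𝒱 (U ⊓ W) = MM 𝒱 U₀ := by linarith
    have h5 : Nat.card W ≤ Nat.card ↥(U ⊓ W) := hmin _ ⟨inf_le_left.trans hUE, h4⟩
    have h6 : U ⊓ W = W := by
      have h7 : ((U ⊓ W : AddSubgroup Γ) : Set Γ) = (W : Set Γ) := by
        refine Set.eq_of_subset_of_ncard_le (fun x hx => hx.2) ?_ (Set.toFinite _)
        exact h5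
      exact SetLike.coe_injective h7
    have h7 : U ⊓ W = U := by
      have h8 : ((U ⊓ W : AddSubgroup Γ) : Set Γ) = (U : Set Γ) := by
        refine Set.eq_of_subset_of_ncard_le (fun x hx => hx.1) ?_ (Set.toFinite _)
        show Nat.card U ≤ _
        rw [hUc]
        exact h5
      exact SetLike.coe_injective h8
    rw [← h7, h6]
  have hWinv : ∀ g : G, g • W = W := by
    intro g
    refine huniq _ ?_ ?_ (card_smul' g W)
    · refine le_trans ?_ (hgE g)
      rw [AddSubgroup.pointwise_smul_le_pointwise_smul_iff]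
      exact hWE
    · rw [MM_smul 𝒱 g (fun V hV => hG g⁻¹ V hV) (fun V hV => hG g V hV), hWm]
  refine ⟨W, hWf, hWinv, ?_⟩
  -- comparison with `V`
  have hle : MM 𝒱 W ≤ MM 𝒱 V := by
    rw [hWm]
    exact hmin₀ V hVE
  have hc0 : (0 : ℝ) < 𝒱.card := by exact_mod_cast Finset.card_pos.2 ⟨V, hV⟩
  have e1 : MM 𝒱 W = 𝒱.card * (Real.log (Nat.card W) - 2 * Real.log (Nat.card ↥(W ⊓ V))) := by
    rw [← sum_sub_const]
    unfold MM
    refine Finset.sum_congr rfl fun U hU => ?_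
    obtain ⟨g, rfl⟩ := htrans U hU
    have : Nat.card ↥(W ⊓ g • V) = Nat.card ↥(W ⊓ V) := by
      rw [← card_smul' g (W ⊓ V), smul_inf', hWinv g]
    rw [this]
  have hVc : (0 : ℝ) < Nat.card V := by exact_mod_cast (Nat.card_pos : 0 < Nat.card V)
  have hWc : (0 : ℝ) < Nat.card W := by exact_mod_cast (Nat.card_pos : 0 < Nat.card W)
  have e2 : MM 𝒱 V ≤ 𝒱.card * (Real.log (Nat.card V) -
      2 * (Real.log (Nat.card V) - Real.log n)) := by
    rw [← sum_sub_const]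
    unfold MM
    refine Finset.sum_le_sum fun U hU => ?_
    have f1 : Finite ↥(V ⊓ U) := finite_of_le (U' := V) inf_le_left
    have h1 : (0 : ℝ) < Nat.card ↥(V ⊓ U) := by exact_mod_cast (Nat.card_pos : 0 < _)
    have h2 : Real.log (Nat.card V) ≤ Real.log n + Real.log (Nat.card ↥(V ⊓ U)) := by
      rw [← Real.log_mul hn.ne' h1.ne']
      exact Real.log_le_log hVc (hclose U hU)
    linarith
  have h3 := hle
  rw [e1] at h3
  have h4 := le_of_mul_le_mul_left (h3.trans e2) hc0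
  have f1 : Finite ↥(W ⊓ V) := finite_of_le (U' := V) inf_le_right
  have h5 : (0 : ℝ) < Nat.card ↥(W ⊓ V) := by exact_mod_cast (Nat.card_pos : 0 < _)
  rw [← Real.log_le_log_iff (by positivity) (by positivity), Real.log_mul hWc.ne' hVc.ne',
    Real.log_mul (by positivity) (by positivity), Real.log_pow, Real.log_pow]
  push_cast
  linarith

theorem smul_fo (g : G) : g • fo G Γ = fo G Γ := by
  ext x
  rw [AddSubgroup.mem_pointwise_smul_iff_inv_smul_mem, smul_mem_fo_iff]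

/-- The orbit of a finite subgroup whose elements have finite orbits is finite. -/
theorem orbit_finite (V : AddSubgroup Γ) [Finite V] (hV : V ≤ fo G Γ) :
    (MulAction.orbit G V).Finite := by
  have h1 : (⋃ x ∈ (V : Set Γ), MulAction.orbit G x).Finite :=
    Set.Finite.biUnion (Set.toFinite _) fun x hx => hV hx
  refine Set.Finite.of_finite_image (f := fun U : AddSubgroup Γ => (U : Set Γ)) ?_ ?_
  · refine (Set.Finite.finite_subsets h1).subset ?_
    rintro _ ⟨_, ⟨g, rfl⟩, rfl⟩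
    rintro _ ⟨x, hx, rfl⟩
    exact Set.mem_biUnion hx ⟨g, rfl⟩
  · intro U _ U' _ h
    exact SetLike.coe_injective h

/-- **Finite subgroups close to all their images are close to an invariant subgroup.** -/
theorem exists_invariant (V : AddSubgroup Γ) [Finite V] {n : ℝ} (hn : 0 < n)
    (h : ∀ g : G, (Nat.card V : ℝ) ≤ n * Nat.card ↥(V ⊓ g • V)) :
    ∃ W : AddSubgroup Γ, Finite W ∧ (∀ g : G, g • W = W) ∧
      (Nat.card W : ℝ) ≤ n ^ 2 * Nat.card V ∧
      (Nat.card V : ℝ) ≤ n ^ 3 * Nat.card ↥(W ⊓ V) := by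
  set V₁ : AddSubgroup Γ := V ⊓ fo G Γ with hV₁
  have hV₁V : V₁ ≤ V := inf_le_left
  have fV₁ : Finite V₁ := finite_of_le hV₁V
  have hVc : (0 : ℝ) < Nat.card V := by exact_mod_cast (Nat.card_pos : 0 < Nat.card V)
  have hV₁c : (0 : ℝ) < Nat.card V₁ := by exact_mod_cast (Nat.card_pos : 0 < Nat.card V₁)
  -- a generic element
  have hgen : (Nat.card V : ℝ) ≤ n * Nat.card V₁ := by
    have hVfin : (V : Set Γ).Finite := Set.toFinite _
    obtain ⟨g, hg⟩ := exists_disj G hVfin.toFinset hVfin.toFinset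
    refine (h g).trans (mul_le_mul_of_nonneg_left ?_ hn.le)
    have h1 : V ⊓ g • V ≤ g • V₁ := by
      intro x hx
      obtain ⟨hx1, y, hy, e⟩ := hx
      have e' : g • y = x := e
      refine ⟨y, ⟨hy, ?_⟩, e⟩
      by_contra hyf
      refine hg y ((Set.Finite.mem_toFinset _).2 hy) hyf ?_
      rw [e']
      exact (Set.Finite.mem_toFinset _).2 hx1
    have := finite_smul' g V₁
    have h2 := card_le_of_le h1
    rw [card_smul'] at h2
    exact_mod_cast h2
  -- closeness of `V₁`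
  have hclose : ∀ g : G, (Nat.card V₁ : ℝ) ≤ n * Nat.card ↥(V₁ ⊓ g • V₁) := by
    intro g
    have e1 : V₁ ⊓ g • V₁ = V₁ ⊓ (V ⊓ g • V) := by
      rw [hV₁, smul_inf', smul_fo]
      ext x
      simp only [AddSubgroup.mem_inf]
      tauto
    have f1 : Finite ↥(V ⊓ g • V) := finite_of_le (U' := V) inf_le_left
    have f2 : Finite ↥(V₁ ⊓ (V ⊓ g • V)) := finite_of_le (U' := V₁) inf_le_left
    have h1 := card_sup_mul_card_inf V₁ (V ⊓ g • V)
    have h2 : Nat.card ↥(V₁ ⊔ (V ⊓ g • V)) ≤ Nat.card V :=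
      card_le_of_le (sup_le hV₁V inf_le_left)
    have h3 : (Nat.card V₁ : ℝ) * Nat.card ↥(V ⊓ g • V) ≤
        Nat.card V * Nat.card ↥(V₁ ⊓ (V ⊓ g • V)) := by
      have : Nat.card V₁ * Nat.card ↥(V ⊓ g • V) ≤
          Nat.card V * Nat.card ↥(V₁ ⊓ (V ⊓ g • V)) := by
        rw [← h1]
        exact Nat.mul_le_mul_right _ h2
      exact_mod_cast this
    rw [e1]
    have h4 : (0 : ℝ) < Nat.card ↥(V ⊓ g • V) := by
      exact_mod_cast (Nat.card_pos : 0 < Nat.card ↥(V ⊓ g • V))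
    have h5 := h g
    have h6 : (Nat.card V₁ : ℝ) * Nat.card ↥(V ⊓ g • V) ≤
        (n * Nat.card ↥(V₁ ⊓ (V ⊓ g • V))) * Nat.card ↥(V ⊓ g • V) := by
      refine h3.trans ?_
      have := mul_le_mul_of_nonneg_right h5
        (Nat.cast_nonneg (α := ℝ) (Nat.card ↥(V₁ ⊓ (V ⊓ g • V))))
      linarith
    exact le_of_mul_le_mul_right h6 h4
  -- the finite orbit
  have horb := orbit_finite (G := G) V₁ inf_le_right
  obtain ⟨W, hWf, hWG, hW⟩ := exists_invariant_of_finite (G := G) horb.toFinset (V := V₁)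
    (by
      intro U hU
      obtain ⟨g, rfl⟩ := (Set.Finite.mem_toFinset _).1 hU
      exact finite_smul' g V₁)
    (by
      intro g U hU
      rw [Set.Finite.mem_toFinset] at hU ⊢
      obtain ⟨g', rfl⟩ := hU
      exact ⟨g * g', mul_smul g g' V₁⟩)
    ((Set.Finite.mem_toFinset _).2 (MulAction.mem_orbit_self _)) hn
    (by
      intro U hU
      obtain ⟨g, rfl⟩ := (Set.Finite.mem_toFinset _).1 hU
      exact ⟨g, rfl⟩)
    (by
      intro U hU
      obtain ⟨g, rfl⟩ := (Set.Finite.mem_toFinset _).1 hU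
      exact hclose g)
  refine ⟨W, hWf, hWG, ?_, ?_⟩
  · -- upper bound for `W`
    have f1 : Finite ↥(W ⊓ V₁) := finite_of_le (U' := V₁) inf_le_right
    have h1 : (Nat.card ↥(W ⊓ V₁) : ℝ) ≤ Nat.card V₁ := by
      exact_mod_cast card_le_of_le (U := W ⊓ V₁) (U' := V₁) inf_le_right
    have h2 : (Nat.card V₁ : ℝ) ≤ Nat.card V := by exact_mod_cast card_le_of_le hV₁V
    have h3 : (Nat.card W : ℝ) * Nat.card V₁ ≤ (n ^ 2 * Nat.card V) * Nat.card V₁ := by
      refine hW.trans ?_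
      have h4 : (Nat.card ↥(W ⊓ V₁) : ℝ) ^ 2 ≤ Nat.card V * Nat.card V₁ := by
        rw [sq]
        exact mul_le_mul (h1.trans h2) h1 (Nat.cast_nonneg _) hVc.le
      calc n ^ 2 * (Nat.card ↥(W ⊓ V₁) : ℝ) ^ 2 ≤ n ^ 2 * (Nat.card V * Nat.card V₁) :=
            mul_le_mul_of_nonneg_left h4 (by positivity)
        _ = _ := by ring
    exact le_of_mul_le_mul_right h3 hV₁c
  · -- lower bound for the intersection
    have f1 : Finite ↥(W ⊓ V₁) := finite_of_le (U' := V₁) inf_le_right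
    have f2 : Finite ↥(W ⊓ V) := finite_of_le (U' := V) inf_le_right
    have h0 : (0 : ℝ) < Nat.card ↥(W ⊓ V₁) := by
      exact_mod_cast (Nat.card_pos : 0 < Nat.card ↥(W ⊓ V₁))
    have h1 : (Nat.card ↥(W ⊓ V₁) : ℝ) ≤ Nat.card W := by
      exact_mod_cast card_le_of_le (U := W ⊓ V₁) (U' := W) inf_le_left
    have h2 : (Nat.card ↥(W ⊓ V₁) : ℝ) ≤ Nat.card ↥(W ⊓ V) := by
      exact_mod_cast card_le_of_le (U := W ⊓ V₁) (U' := W ⊓ V) (inf_le_inf_left _ hV₁V)
    have h3 : (Nat.card V₁ : ℝ) ≤ n ^ 2 * Nat.card ↥(W ⊓ V₁) := by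
      have h4 : (Nat.card V₁ : ℝ) * Nat.card ↥(W ⊓ V₁) ≤
          (n ^ 2 * Nat.card ↥(W ⊓ V₁)) * Nat.card ↥(W ⊓ V₁) := by
        calc (Nat.card V₁ : ℝ) * Nat.card ↥(W ⊓ V₁) ≤ Nat.card V₁ * Nat.card W :=
              mul_le_mul_of_nonneg_left h1 hV₁c.le
          _ ≤ n ^ 2 * (Nat.card ↥(W ⊓ V₁) : ℝ) ^ 2 := by rw [mul_comm]; exact hW
          _ = _ := by ring
      exact le_of_mul_le_mul_right h4 h0
    calc (Nat.card V : ℝ) ≤ n * Nat.card V₁ := hgen
      _ ≤ n * (n ^ 2 * Nat.card ↥(W ⊓ V₁)) := mul_le_mul_of_nonneg_left h3 hn.le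
      _ ≤ n * (n ^ 2 * Nat.card ↥(W ⊓ V)) := by gcongr
      _ = _ := by ring

end Pool.Agent.V5helper70.EQ
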